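import Pool.Agent.Lib.MP_b197b4_ntQ.Line
import Pool.Agent.Lib.MP_b197b4_ntX.X1
import Pool.Agent.Lib.MP_b197b4_ntA.Defs2
import Pool.Agent.Lib.MP_b197b4_ntA.Bl2
import Pool.Agent.Lib.MP_b197b4_ntA.BlLoc
import Pool.Agent.Lib.MP_b197b4_ntA.Cur3
import Pool.Agent.Lib.MP_b197b4_ntA.Ext2

/-!
# MP_b197b4_nt, project K1-ALL, block Q: the blow up along a place
-/

set_option autoImplicit false
set_option linter.style.haveILetI false

namespace Pool.Agent.Lib.MP_b197b4_ntQ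

open IsLocalRing Pool.Agent.Lib.MP_b197b4_ntK Pool.Agent.Lib.MP_b197b4_ntA
  Pool.Agent.Lib.MP_b197b4_ntD

variable {k F : Type} [Field k] [Field F] [Algebra k F]

theorem hasDim_of_dchart {d : ℕ} {A : Subalgebra k F} (hA : DChart d A) : HasDim k A d := by
  haveI : Algebra.FiniteType k A := (Subalgebra.fg_iff_finiteType _).1 hA.fg
  haveI : IsNoetherianRing A := Algebra.FiniteType.isNoetherianRing k A
  obtain ⟨s, hs⟩ := exists_hasDim k A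
  obtain ⟨m, hm⟩ := Ideal.exists_maximal A
  have h1 := hs.height m hm
  rw [hA.height m hm] at h1
  have h2 : d = s := by exact_mod_cast h1
  rw [h2]
  exact hs

theorem dchart_of_hasDim {d : ℕ} {A : Subalgebra k F} (hfg : A.FG) (hfr : IsFractionRing A F)
    (h : HasDim k A d) : DChart d A := by
  haveI : Algebra.FiniteType k A := (Subalgebra.fg_iff_finiteType _).1 hfg
  haveI : IsNoetherianRing A := Algebra.FiniteType.isNoetherianRing k A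
  exact ⟨hfg, hfr, fun m hm => h.height m hm⟩

section Data

variable {d : ℕ} {A : Subalgebra k F} {f₀ : A} {x : Fin d → A} {i₀ : Fin d}

/-- The coordinates in the localised chart. -/
noncomputable abbrev x1 (f₀ : A) (x : Fin d → A) (i : Fin d) : blLoc A f₀ := BlLoc.inc A f₀ (x i)

/-- The chart of the blow up. -/
noncomputable abbrev B3 (f₀ : A) (x : Fin d → A) (i₀ : Fin d) : Subalgebra k F :=
  bl (blLoc A f₀) (x1 f₀ x) i₀

theorem le_B3 : A ≤ B3 f₀ x i₀ := (BlLoc.le A f₀).trans le_bl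

theorem x1_ne (hz : x i₀ ≠ 0) : x1 f₀ x i₀ ≠ 0 := fun h => hz (by
  apply Subtype.ext
  exact congrArg (Subtype.val : blLoc A f₀ → F) h)

theorem ext_pow (hf : f₀ ≠ 0) (hz : x i₀ ≠ 0) {a : F} (ha : a ∈ B3 f₀ x i₀) :
    ∃ n : ℕ, ((f₀ : F) * (x i₀ : F)) ^ n * a ∈ A := by
  have hfA : (f₀ : F) * (x i₀ : F) ∈ A := mul_mem f₀.2 (x i₀).2
  have hf' : (f₀ : F) ≠ 0 := fun h => hf (Subtype.ext h)
  have hz' : (x i₀ : F) ≠ 0 := fun h => hz (Subtype.ext h)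
  refine bl_induction (A := blLoc A f₀) (x := x1 f₀ x) (i0 := i₀)
    (p := fun a => ∃ n : ℕ, ((f₀ : F) * (x i₀ : F)) ^ n * (a : F) ∈ A) ?_ ?_ ?_ ?_ ⟨a, ha⟩
  · intro a
    obtain ⟨n, hn⟩ := (BlLoc.mem_iff hf (a : F)).1 a.2
    refine ⟨n, ?_⟩
    have : ((f₀ : F) * (x i₀ : F)) ^ n * (a : F) = (x i₀ : F) ^ n * ((f₀ : F) ^ n * (a : F)) := by
      ring
    rw [inc_coe, this]
    exact mul_mem (pow_mem (x i₀).2 _) hn
  · intro i
    refine ⟨1, ?_⟩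
    change ((f₀ : F) * (x i₀ : F)) ^ 1 * ((x i : F) / (x i₀ : F)) ∈ A
    have : ((f₀ : F) * (x i₀ : F)) ^ 1 * ((x i : F) / (x i₀ : F)) = (f₀ : F) * (x i : F) := by
      field_simp
    rw [this]
    exact mul_mem f₀.2 (x i).2
  · rintro a b ⟨n, hn⟩ ⟨m, hm⟩
    refine ⟨n + m, ?_⟩
    have : ((f₀ : F) * (x i₀ : F)) ^ (n + m) * ((a + b : bl (blLoc A f₀) (x1 f₀ x) i₀) : F) =
        ((f₀ : F) * (x i₀ : F)) ^ m * (((f₀ : F) * (x i₀ : F)) ^ n * (a : F)) +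
          ((f₀ : F) * (x i₀ : F)) ^ n * (((f₀ : F) * (x i₀ : F)) ^ m * (b : F)) := by
      push_cast
      ring
    rw [this]
    exact add_mem (mul_mem (pow_mem hfA _) hn) (mul_mem (pow_mem hfA _) hm)
  · rintro a b ⟨n, hn⟩ ⟨m, hm⟩
    refine ⟨n + m, ?_⟩
    have : ((f₀ : F) * (x i₀ : F)) ^ (n + m) * ((a * b : bl (blLoc A f₀) (x1 f₀ x) i₀) : F) =
        (((f₀ : F) * (x i₀ : F)) ^ n * (a : F)) * (((f₀ : F) * (x i₀ : F)) ^ m * (b : F)) := by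
      push_cast
      ring
    rw [this]
    exact mul_mem hn hm

/-- `f₀` is a unit of the chart. -/
theorem isUnit_f₀ (hf : f₀ ≠ 0) : IsUnit (⟨f₀, le_B3 f₀.2⟩ : B3 f₀ x i₀) := by
  have hf' : (f₀ : F) ≠ 0 := fun h => hf (Subtype.ext h)
  refine IsUnit.of_mul_eq_one ⟨(f₀ : F)⁻¹, le_bl (BlLoc.inv_mem A f₀)⟩ (Subtype.ext ?_)
  exact mul_inv_cancel₀ hf'

/-- A prime ideal with `f₀ z` contains `z`. -/
theorem z_mem_of (hf : f₀ ≠ 0) {n : Ideal (B3 f₀ x i₀)} (hn : n.IsPrime)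
    (h : (⟨(f₀ : F) * (x i₀ : F), le_B3 (mul_mem f₀.2 (x i₀).2)⟩ : B3 f₀ x i₀) ∈ n) :
    (⟨x i₀, le_B3 (x i₀).2⟩ : B3 f₀ x i₀) ∈ n := by
  have h1 : (⟨(f₀ : F) * (x i₀ : F), le_B3 (mul_mem f₀.2 (x i₀).2)⟩ : B3 f₀ x i₀) =
      ⟨f₀, le_B3 f₀.2⟩ * ⟨x i₀, le_B3 (x i₀).2⟩ := rfl
  rw [h1] at h
  rcases hn.mem_or_mem h with h2 | h2
  · exact absurd (Ideal.eq_top_of_isUnit_mem n h2 (isUnit_f₀ hf)) hn.ne_top
  · exact h2

theorem comap_eq (hf : f₀ ≠ 0) (hz : x i₀ ≠ 0) {y : Ideal A} (hy : y.IsMaximal)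
    (hyx : ∀ v ∈ y, f₀ * v ∈ Ideal.span (Set.range x)) {n : Ideal (B3 f₀ x i₀)}
    (hn : n.IsPrime) (hzn : (⟨x i₀, le_B3 (x i₀).2⟩ : B3 f₀ x i₀) ∈ n) :
    n.comap (Subalgebra.inclusion le_B3) = y := by
  symm
  refine hy.eq_of_le (Ideal.comap_ne_top _ hn.ne_top) ?_
  intro v hv
  rw [Ideal.mem_comap]
  have h1 : Ideal.span (Set.range x) ≤ n.comap (Subalgebra.inclusion le_B3) := by
    rw [Ideal.span_le]
    rintro _ ⟨i, rfl⟩
    change (⟨x i, le_B3 (x i).2⟩ : B3 f₀ x i₀) ∈ n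
    have h2 : (⟨x i, le_B3 (x i).2⟩ : B3 f₀ x i₀) =
        ⟨x i₀, le_B3 (x i₀).2⟩ * (qt (x1 f₀ x) i₀ i : bl (blLoc A f₀) (x1 f₀ x) i₀) := by
      apply Subtype.ext
      change (x i : F) = (x i₀ : F) * ((x i : F) / (x i₀ : F))
      rw [mul_div_cancel₀ _ (fun h => hz (Subtype.ext h))]
    rw [h2]
    exact n.mul_mem_right _ hzn
  have h2 : Subalgebra.inclusion le_B3 (f₀ * v) ∈ n := h1 (hyx v hv)
  rw [map_mul] at h2
  rcases hn.mem_or_mem h2 with h3 | h3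
  · exact absurd (Ideal.eq_top_of_isUnit_mem n h3 (isUnit_f₀ hf)) hn.ne_top
  · exact h3

theorem ext_B3 (hf : f₀ ≠ 0) (hz : x i₀ ≠ 0) {y : Ideal A} (hy : y.IsMaximal)
    (hyx : ∀ v ∈ y, f₀ * v ∈ Ideal.span (Set.range x)) :
    Ext A (B3 f₀ x i₀) ((f₀ : F) * (x i₀ : F)) where
  le := le_B3
  mem := mul_mem f₀.2 (x i₀).2
  ne := mul_ne_zero (fun h => hf (Subtype.ext h)) (fun h => hz (Subtype.ext h))
  pow a ha := ext_pow hf hz ha
  pt P hP h := by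
    rw [comap_eq hf hz hy hyx hP (z_mem_of hf hP h)]
    exact hy

theorem dchart_B3 (hA : DChart d A) (f₀ : A) (x : Fin d → A) (i₀ : Fin d) :
    DChart d (B3 f₀ x i₀) := by
  have h0 : (B3 f₀ x i₀).FG := bl_fg (BlLoc.fg hA.fg)
  have h1 : IsFractionRing (blLoc A f₀) F := BlLoc.isFractionRing_of_le (BlLoc.le A f₀) hA.frac
  have h2 : IsFractionRing (B3 f₀ x i₀) F := bl_frac h1
  haveI := hA.frac
  haveI := h2
  haveI : Algebra.FiniteType k (B3 f₀ x i₀) := (Subalgebra.fg_iff_finiteType _).1 h0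
  exact dchart_of_hasDim h0 h2 ((hasDim_of_dchart hA).of_frac F)

/-- The homomorphism onto the coordinate ring of the exceptional divisor. -/
theorem exists_rho_B3 [IsAlgClosed k] (hA : DChart d A) (hf : f₀ ≠ 0) (hz : x i₀ ≠ 0)
    {y : Ideal A} (hy : y.IsMaximal) (hfy : f₀ ∉ y) (hx : ∀ i, x i ∈ y)
    (hyx : ∀ v ∈ y, f₀ * v ∈ Ideal.span (Set.range x)) :
    ∃ ρ : bl (blLoc A f₀) (x1 f₀ x) i₀ →ₐ[k] MvPolynomial {i // i ≠ i₀} k,
      Function.Surjective ρ ∧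
      (∀ f, ρ f = 0 ↔ f ∈ Ideal.span {inc (x1 f₀ x) i₀ (x1 f₀ x i₀)}) ∧
      (∀ i : {i // i ≠ i₀}, ρ (qt (x1 f₀ x) i₀ i) = MvPolynomial.X i) := by
  have hA1 : DChart d (blLoc A f₀) := BlLoc.dchart hA hf
  haveI : Algebra.FiniteType k (blLoc A f₀) := (Subalgebra.fg_iff_finiteType _).1 hA1.fg
  obtain ⟨hmax, -⟩ := BlLoc.span_isMaximal hA.fg hf x y hy hfy hx hyx
  haveI := hmax.isPrime
  have hd := hasDim_of_dchart hA1
  refine exists_rho (m := Ideal.span (Set.range fun i => BlLoc.inc A f₀ (x i))) hA1.fg hA1.frac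
    ?_ (x1_ne hz) rfl ?_ ?_
  · rw [Fintype.card_fin]
    exact hd
  · rw [Fintype.card_fin]
    exact hA1.height _ hmax
  · intro a
    exact MP_b197b4_ntX.exists_value hmax a

/-- Values of an extended homomorphism. -/
theorem val_B3 (hf : f₀ ≠ 0) {y : Ideal A} (hfy : f₀ ∉ y)
    {K : Type} [Field K] [Algebra k K] {ψ : A →ₐ[k] K} {ψ' : B3 f₀ x i₀ →ₐ[k] K}
    {W : ValuationSubring K} (hψ : ψ'.comp (Subalgebra.inclusion le_B3) = ψ)
    (hW : IsDiscreteValuationRing W) (hWy : CenterK ψ W y) (hz : ψ (x i₀) ≠ 0)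
    (hmin : ∀ i, ψ (x i) ≠ 0 → ord W (ψ (x i₀)) ≤ ord W (ψ (x i))) (a : B3 f₀ x i₀) :
    ψ' a ∈ W := by
  have hz0 : x i₀ ≠ 0 := fun h => hz (by rw [h, map_zero])
  have hψa : ∀ a : A, ψ' (Subalgebra.inclusion le_B3 a) = ψ a := fun a => DFunLike.congr_fun hψ a
  have hf1 : W.valuation (ψ f₀) = 1 := by
    refine le_antisymm ((ValuationSubring.valuation_le_one_iff W _).2 (hWy f₀).1) ?_
    by_contra hlt
    exact hfy ((hWy f₀).2.2 (not_le.1 hlt))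
  have hf2 : ψ f₀ ≠ 0 := by
    intro h
    rw [h, map_zero] at hf1
    exact zero_ne_one hf1
  refine bl_induction (A := blLoc A f₀) (x := x1 f₀ x) (i0 := i₀)
    (p := fun a => ψ' a ∈ W) ?_ ?_ ?_ ?_ a
  · intro a
    obtain ⟨n, hn⟩ := (BlLoc.mem_iff hf (a : F)).1 a.2
    have h1 : (Subalgebra.inclusion le_B3 f₀ : B3 f₀ x i₀) ^ n * inc (x1 f₀ x) i₀ a =
        Subalgebra.inclusion le_B3 ⟨_, hn⟩ := by
      apply Subtype.ext
      rw [MulMemClass.coe_mul, SubmonoidClass.coe_pow, inc_coe]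
      rfl
    have h2 := congrArg ψ' h1
    rw [map_mul, map_pow, hψa, hψa] at h2
    have h3 : ψ' (inc (x1 f₀ x) i₀ a) = ψ ⟨_, hn⟩ * ((ψ f₀) ^ n)⁻¹ := by
      rw [← h2, mul_comm, inv_mul_cancel_left₀ (pow_ne_zero n hf2)]
    rw [h3]
    refine mul_mem (hWy _).1 ?_
    rw [← ValuationSubring.valuation_le_one_iff, map_inv₀, map_pow, hf1, one_pow, inv_one]
  · intro i
    have h1 : (Subalgebra.inclusion le_B3 (x i₀) : B3 f₀ x i₀) * qt (x1 f₀ x) i₀ i =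
        Subalgebra.inclusion le_B3 (x i) := by
      apply Subtype.ext
      change (x i₀ : F) * ((x i : F) / (x i₀ : F)) = (x i : F)
      rw [mul_div_cancel₀ _ (fun h => hz0 (Subtype.ext h))]
    have h2 := congrArg ψ' h1
    rw [map_mul, hψa, hψa] at h2
    have h3 : ψ' (qt (x1 f₀ x) i₀ i) = ψ (x i) / ψ (x i₀) := by
      rw [← h2, mul_div_cancel_left₀ _ hz]
    rw [h3]
    by_cases h0 : ψ (x i) = 0
    · rw [h0, zero_div]
      exact zero_mem _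
    · rw [← ord_nonneg_iff hW (div_ne_zero h0 hz), ord_div hW h0 hz]
      have := hmin i h0
      omega
  · intro a b ha hb
    rw [map_add]
    exact add_mem ha hb
  · intro a b ha hb
    rw [map_mul]
    exact mul_mem ha hb

/-- The blow up. -/
theorem blow_of_coords [IsAlgClosed k] (hA : DChart d A) {y : Ideal A} (hy : RegMax y)
    (hfy : f₀ ∉ y) (hz : x i₀ ≠ 0) (hzsq : x i₀ ∉ y ^ 2) (hx : ∀ i, x i ∈ y)
    (hyx : ∀ v ∈ y, f₀ * v ∈ Ideal.span (Set.range x)) :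
    Blow k d A (B3 f₀ x i₀) ((f₀ : F) * (x i₀ : F)) y (x i₀) := by
  classical
  have hf : f₀ ≠ 0 := fun h => hfy (h ▸ y.zero_mem)
  have hf' : (f₀ : F) ≠ 0 := fun h => hf (Subtype.ext h)
  have hB := dchart_B3 hA f₀ x i₀
  haveI : Algebra.FiniteType k (bl (blLoc A f₀) (x1 f₀ x) i₀) :=
    (Subalgebra.fg_iff_finiteType _).1 hB.fg
  haveI : IsNoetherianRing (bl (blLoc A f₀) (x1 f₀ x) i₀) :=
    Algebra.FiniteType.isNoetherianRing k _
  obtain ⟨ρ, hρs, hρ0, hρX⟩ := exists_rho_B3 hA hf hz hy.1 hfy hx hyx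
  -- coordinates of a point
  have hcoord : ∀ n : Ideal (bl (blLoc A f₀) (x1 f₀ x) i₀), n.IsMaximal →
      ∃ c : {i // i ≠ i₀} → k, ∀ i : {i // i ≠ i₀},
        qt (x1 f₀ x) i₀ i - algebraMap k _ (c i) ∈ n := by
    intro n hn
    exact ⟨fun i => (MP_b197b4_ntX.exists_value (k := k) hn (qt (x1 f₀ x) i₀ i)).choose,
      fun i => (MP_b197b4_ntX.exists_value (k := k) hn (qt (x1 f₀ x) i₀ i)).choose_spec⟩
  refine ⟨ext_B3 hf hz hy.1 hyx, hB, hx i₀, hzsq, ⟨f₀, le_B3 f₀.2, le_B3 f₀.2,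
    le_bl (BlLoc.inv_mem A f₀), rfl⟩, ?_, ?_, ?_, ?_⟩
  · intro n hn h
    exact comap_eq hf hz hy.1 hyx hn (z_mem_of hf hn h)
  · intro n hn h
    have hzn := z_mem_of hf hn.isPrime h
    obtain ⟨c, hc⟩ := hcoord n hn
    refine ⟨hn, fun hnp => ?_⟩
    have h1 := span_par hρ0 hρX hn.ne_top hzn c hc
    refine regular_of_span (hm := hnp) (par (x1 f₀ x) i₀ c) h1 ?_
    rw [Fintype.card_fin]
    exact hB.height n hn
  · intro K _ _ ψ ψ' W hψ hW hWy hord a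
    have hz1 : ψ (x i₀) ≠ 0 := by
      intro h
      rw [h] at hord
      have : ord W (0 : K) = 0 := by
        unfold ord
        rw [dif_neg]
        rintro ⟨n, p, u, hp, h1⟩
        have hp0 : (p : K) ≠ 0 := fun h => hp.ne_zero (Subtype.ext h)
        have hu0 : ((u : W) : K) ≠ 0 := fun h => u.ne_zero (Subtype.ext h)
        exact (mul_ne_zero (zpow_ne_zero n hp0) hu0) h1.symm
      omega
    refine val_B3 hf hfy hψ hW.1 hWy hz1 (fun i hi => ?_) a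
    rw [hord]
    have h2 := (hWy (x i)).2.1 (hx i)
    have h3 := (ord_pos_iff hW.1 hi).2 h2
    omega
  · intro n n' hn hn' hne hfn hfn'
    have hzn := z_mem_of hf hn.isPrime hfn
    have hzn' := z_mem_of hf hn'.isPrime hfn'
    obtain ⟨c, hc⟩ := hcoord n hn
    obtain ⟨c', hc'⟩ := hcoord n' hn'
    have h1 := mem_point_iff hρ0 hρX hn.ne_top hzn c hc
    have h2 := mem_point_iff hρ0 hρX hn'.ne_top hzn' c' hc'
    have hcc : c ≠ c' := by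
      rintro rfl
      apply hne
      ext f
      rw [h1, h2]
    obtain ⟨χ, W, W', h3, h4⟩ := exists_line hρs hρ0 hcc h1 h2
    refine ⟨χ, W, W', ?_, h4⟩
    have h5 : (⟨(f₀ : F) * (x i₀ : F), le_B3 (mul_mem f₀.2 (x i₀).2)⟩ : B3 f₀ x i₀) =
      ⟨f₀, le_B3 f₀.2⟩ * ⟨x i₀, le_B3 (x i₀).2⟩ := rfl
    change χ (⟨(f₀ : F) * (x i₀ : F), le_B3 (mul_mem f₀.2 (x i₀).2)⟩ : B3 f₀ x i₀) = 0
    rw [h5, map_mul]
    have h6 : χ (⟨x i₀, le_B3 (x i₀).2⟩ : B3 f₀ x i₀) = 0 := h3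
    rw [h6, mul_zero]

end Data

end Pool.Agent.Lib.MP_b197b4_ntQ

namespace Pool.Agent.Lib.MP_b197b4_ntA

open IsLocalRing Pool.Agent.Lib.MP_b197b4_ntK Pool.Agent.Lib.MP_b197b4_ntQ

/-- **Q1** The blow up along a place. -/
theorem exists_blow {k F : Type} [Field k] [IsAlgClosed k] [Field F] [Algebra k F] {d : ℕ}
    (hd : 2 ≤ d) {A : Subalgebra k F} (hA : DChart d A) (y : Ideal A) (hy : RegMax y)
    (s : Finset (Ideal A)) (hs : ∀ m ∈ s, m.IsMaximal ∧ m ≠ y)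
    {K : Type} [Field K] [Algebra k K] (hK : FunF k K 1) (ψ : A →ₐ[k] K)
    (hψ : ∀ e : K, ∃ a b : A, ψ b ≠ 0 ∧ e = ψ a / ψ b) (W : ValuationSubring K)
    (hW : Place k W) (hWy : CenterK ψ W y) :
    ∃ (A' : Subalgebra k F) (f : F) (z : A) (hB : Blow k d A A' f y z) (ψ' : A' →ₐ[k] K)
      (n : Ideal A'), ψ'.comp (Subalgebra.inclusion hB.ext.le) = ψ ∧ n.IsMaximal ∧
      (⟨f, hB.ext.le hB.ext.mem⟩ : A') ∈ n ∧ CenterK ψ' W n ∧
      (∀ m ∈ s, (⟨f, hB.ext.mem⟩ : A) ∉ m) ∧ ψ ⟨f, hB.ext.mem⟩ ≠ 0 ∧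
      /- fractions get simpler -/
      ∀ a b : A, ψ b ≠ 0 → 0 < ord W (ψ b) → ψ a / ψ b ∈ W →
        ∃ a' b' : A', ψ' b' ≠ 0 ∧ ψ' a' / ψ' b' = ψ a / ψ b ∧ 0 ≤ ord W (ψ' b') ∧
          ord W (ψ' b') < ord W (ψ b) := by
  obtain ⟨x, i₀, f₀, hx, hz, hmin, hpos, hzsq, hsm, hfy, hyx⟩ :=
    exists_blow_coords hd hA y hy s hs ψ hψ W hW hWy
  have hz0 : x i₀ ≠ 0 := fun h => hz (by rw [h, map_zero])
  have hf : f₀ ≠ 0 := fun h => hfy (h ▸ y.zero_mem)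
  have hB := blow_of_coords hA hy hfy hz0 hzsq hx hyx
  have hWd := hW.1
  -- the value of `f₀`
  have hf1 : W.valuation (ψ f₀) = 1 := by
    refine le_antisymm ((ValuationSubring.valuation_le_one_iff W _).2 (hWy f₀).1) ?_
    by_contra hlt
    exact hfy ((hWy f₀).2.2 (not_le.1 hlt))
  have hf2 : ψ f₀ ≠ 0 := by
    intro h
    rw [h, map_zero] at hf1
    exact zero_ne_one hf1
  have hψf : ψ ⟨(f₀ : F) * (x i₀ : F), hB.ext.mem⟩ ≠ 0 := by
    have h1 : (⟨(f₀ : F) * (x i₀ : F), hB.ext.mem⟩ : A) = f₀ * x i₀ := rfl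
    rw [h1, map_mul]
    exact mul_ne_zero hf2 hz
  obtain ⟨ψ', hψ'⟩ := exists_extend hB.ext ψ hψf
  have hψa : ∀ a : A, ψ' (Subalgebra.inclusion le_B3 a) = ψ a := fun a =>
    DFunLike.congr_fun hψ' a
  have hval : ∀ a, ψ' a ∈ W := val_B3 hf hfy hψ' hWd hWy hz (fun i hi => hmin _ (hx i) hi)
  have hgen : ∀ e : K, ∃ a b : B3 f₀ x i₀, ψ' b ≠ 0 ∧ e = ψ' a / ψ' b := by
    intro e
    obtain ⟨a, b, h1, h2⟩ := hψ e
    exact ⟨Subalgebra.inclusion le_B3 a, Subalgebra.inclusion le_B3 b, by rw [hψa]; exact h1,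
      by rw [hψa, hψa]; exact h2⟩
  obtain ⟨n, hn, hcen⟩ := exists_center hB.chart.fg hK ψ' hgen W hW hval
  have hzval : W.valuation (ψ (x i₀)) < 1 := (hWy _).2.1 (hx i₀)
  have hfn : (⟨(f₀ : F) * (x i₀ : F), hB.ext.le hB.ext.mem⟩ : B3 f₀ x i₀) ∈ n := by
    rw [(hcen _).2]
    have h1 : ψ' (⟨(f₀ : F) * (x i₀ : F), hB.ext.le hB.ext.mem⟩ : B3 f₀ x i₀) =
        ψ f₀ * ψ (x i₀) := by
      rw [← map_mul, ← hψa]
      rfl
    rw [h1, map_mul, hf1, one_mul]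
    exact hzval
  refine ⟨B3 f₀ x i₀, (f₀ : F) * (x i₀ : F), x i₀, hB, ψ', n, hψ', hn, hfn, hcen, ?_, hψf, ?_⟩
  · intro m hm h
    have h1 : (⟨(f₀ : F) * (x i₀ : F), hB.ext.mem⟩ : A) = f₀ * x i₀ := rfl
    rw [h1] at h
    rcases (hs m hm).1.isPrime.mem_or_mem h with h2 | h2
    · exact (hsm m hm).2 h2
    · exact (hsm m hm).1 h2
  · intro a b hb hbpos hab
    -- both are in `y`
    have hby : b ∈ y := (hWy b).2.2 ((ord_pos_iff hWd hb).1 hbpos)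
    have hay : a ∈ y := by
      refine (hWy a).2.2 ?_
      have h1 : ψ a = ψ a / ψ b * ψ b := by rw [div_mul_cancel₀ _ hb]
      rw [h1, map_mul]
      have h2 := (ValuationSubring.valuation_le_one_iff W _).2 hab
      have h3 := (hWy b).2.1 hby
      exact lt_of_le_of_lt (mul_le_of_le_one_left' h2) h3
    -- division by `x i₀`
    have hdiv : ∀ v ∈ y, ∃ v' : B3 f₀ x i₀, ψ' v' = ψ f₀ * ψ v / ψ (x i₀) := by
      intro v hv
      have h1 := hyx v hv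
      have h2 : ∀ g : A, g ∈ Ideal.span (Set.range x) →
          ((g : F) / (x i₀ : F)) ∈ B3 f₀ x i₀ := by
        intro g hg
        have h3 : BlLoc.inc A f₀ g ∈ Ideal.span (Set.range (x1 f₀ x)) ^ 1 := by
          rw [pow_one]
          have h4 : Ideal.span (Set.range x) ≤
              (Ideal.span (Set.range (x1 f₀ x))).comap (BlLoc.inc A f₀) := by
            rw [Ideal.span_le]
            rintro _ ⟨i, rfl⟩
            exact Ideal.subset_span ⟨i, rfl⟩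
          exact h4 hg
        have h5 := mem_bl_of_pow (x := x1 f₀ x) (i0 := i₀) h3
        rw [pow_one] at h5
        exact h5
      refine ⟨⟨_, h2 _ h1⟩, ?_⟩
      have h6 : (⟨_, h2 _ h1⟩ : B3 f₀ x i₀) * Subalgebra.inclusion le_B3 (x i₀) =
          Subalgebra.inclusion le_B3 (f₀ * v) := by
        apply Subtype.ext
        change ((f₀ * v : A) : F) / (x i₀ : F) * (x i₀ : F) = ((f₀ * v : A) : F)
        rw [div_mul_cancel₀ _ (fun h => hz0 (Subtype.ext h))]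
      have h7 := congrArg ψ' h6
      rw [map_mul, hψa, hψa, map_mul] at h7
      rw [eq_div_iff hz]
      exact h7
    obtain ⟨a', ha'⟩ := hdiv a hay
    obtain ⟨b', hb'⟩ := hdiv b hby
    have hb0 : ψ' b' ≠ 0 := by
      rw [hb']
      exact div_ne_zero (mul_ne_zero hf2 hb) hz
    refine ⟨a', b', hb0, ?_, (ord_nonneg_iff hWd hb0).2 (hval b'), ?_⟩
    · rw [ha', hb', div_div_div_cancel_right₀ hz, mul_div_mul_left _ _ hf2]
    · rw [hb', ord_div hWd (mul_ne_zero hf2 hb) hz, ord_mul hWd hf2 hb,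
        (ord_eq_zero_iff hWd hf2).2 hf1]
      omega

end Pool.Agent.Lib.MP_b197b4_ntA
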