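import Mathlib
import Pool.Agent.Lib.MP_b197b4_ntD.Dim

/-!
# MP_b197b4_nt, project K1-ALL: affine domains of dimension one and two
-/

set_option autoImplicit false
set_option linter.style.haveILetI false

namespace Pool.Agent.Lib.MP_b197b4_ntD

universe u v

variable {k : Type u} [Field k]

section

variable {A : Type v} [CommRing A] [IsDomain A] [Algebra k A]

theorem HasDim.not_isField [IsNoetherianRing A] {s : ℕ} (h : HasDim k A (s + 1)) :
    ¬ IsField A := by
  intro hF
  have h1 := h.ringKrullDim
  rw [ringKrullDim_eq_zero_of_isField hF] at h1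
  have h2 : (0 : ℕ) = s + 1 := by exact_mod_cast h1
  omega

/-- In dimension zero the ring is a field. -/
theorem HasDim.isField_of_zero (h : HasDim k A 0) : IsField A := by
  obtain ⟨g, hg, hi⟩ := h
  letI := g.toRingHom.toAlgebra
  haveI : Algebra.IsIntegral (MvPolynomial (Fin 0) k) A := ⟨hi⟩
  exact isField_of_isIntegral_of_isField'
    ((MvPolynomial.isEmptyRingEquiv k (Fin 0)).toMulEquiv.isField (Field.toIsField k))

/-- In dimension one all nonzero primes are maximal. -/
theorem HasDim.isMaximal_of_one [Algebra.FiniteType k A] (h : HasDim k A 1) (P : Ideal A)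
    [hP : P.IsPrime] (hne : P ≠ ⊥) : P.IsMaximal := by
  haveI : IsNoetherianRing A := Algebra.FiniteType.isNoetherianRing k A
  obtain ⟨n, t, h1, h2, h3⟩ := h.quotient P
  have h4 : 1 ≤ P.height := by
    have h5 : (⊥ : Ideal A) < P := bot_lt_iff_ne_bot.2 hne
    haveI : (⊥ : Ideal A).IsPrime := Ideal.isPrime_bot
    have h6 := Ideal.height_add_one_le_of_lt_of_isPrime h5
    rwa [Ideal.height_bot, zero_add] at h6
  rw [h1] at h4
  have h5 : 1 ≤ n := by exact_mod_cast h4
  obtain rfl : t = 0 := by omega
  exact Ideal.Quotient.maximal_of_isField P h2.isField_of_zero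

/-- A prime ideal of coheight zero is maximal. -/
theorem isMaximal_of_hasDim_zero {A : Type v} [CommRing A] [Algebra k A] {P : Ideal A}
    [hP : P.IsPrime] (h : HasDim k (A ⧸ P) 0) : P.IsMaximal :=
  Ideal.Quotient.maximal_of_isField P h.isField_of_zero

end

end Pool.Agent.Lib.MP_b197b4_ntD
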