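import Mathlib
import Pool.Agent.Lib.MP_b197b4_ntK.Curve
import Pool.Agent.Lib.MP_b197b4_ntK.SingB

/-!
# MP_b197b4_nt, project K1-ALL, file Q3: a place of a curve becomes regular after finitely many
quadratic transforms
-/

set_option autoImplicit false
set_option linter.style.haveILetI false

namespace Pool.Agent.Lib.MP_b197b4_ntQ

open IsLocalRing Pool.Agent.Lib.MP_b197b4_ntK

variable {k K : Type} [Field k] [Field K] [Algebra k K]

/-- Every element of `W` is a fraction with elements of `B` whose denominator has order at most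
`e`. -/
def Den (B : Subalgebra k K) (W : ValuationSubring K) (e : ℕ) : Prop :=
  ∀ u ∈ W, ∃ a b : K, a ∈ B ∧ b ∈ B ∧ b ≠ 0 ∧ ord W b ≤ e ∧ u = a / b

/-- The integral closure of a principal ideal domain in a finite separable extension `K` is, up to
one denominator, contained in every order `B` with fraction field `K`. -/
theorem exists_conductor {R E : Type} [CommRing R] [IsDomain R] [IsPrincipalIdealRing R] [Field E]
    [Algebra R E] [IsFractionRing R E] [Algebra E K] [Algebra R K] [IsScalarTower R E K]
    [FiniteDimensional E K] [Algebra.IsSeparable E K] (B : Subalgebra k K)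
    (hB : IsFractionRing B K) (hR : ∀ r : R, algebraMap R K r ∈ B) :
    ∃ d ∈ B, d ≠ 0 ∧ ∀ c ∈ integralClosure R K, d * c ∈ B := by
  classical
  obtain ⟨s, b, hb⟩ := FiniteDimensional.exists_is_basis_integral R E K
  haveI : IsIntegrallyClosed R := inferInstance
  have hle := integralClosure_le_span_dualBasis (A := R) b hb
  set e := (Algebra.traceForm E K).dualBasis (traceForm_nondegenerate E K) b with he
  -- a common denominator
  obtain ⟨⟨d, hd⟩, hde⟩ := IsLocalization.exist_integer_multiples_of_finset (nonZeroDivisors B)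
    (Finset.univ.image e)
  have hd0 : (d : K) ≠ 0 := by
    intro h
    exact nonZeroDivisors.ne_zero hd (Subtype.ext h)
  refine ⟨d, d.2, hd0, ?_⟩
  intro c hc
  have hc2 := hle hc
  have hmem : ∀ y ∈ Submodule.span R (Set.range e), (d : K) * y ∈ B := by
    intro y hy
    induction hy using Submodule.span_induction with
    | mem y hy =>
      obtain ⟨i, rfl⟩ := hy
      obtain ⟨z, hz⟩ := hde (e i) (Finset.mem_image_of_mem _ (Finset.mem_univ i))
      have h1 : (d : K) * e i = (z : K) := by
        have h2 : algebraMap B K z = (z : K) := rfl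
        rw [← h2, hz]
        rfl
      rw [h1]
      exact z.2
    | zero =>
      rw [mul_zero]
      exact zero_mem _
    | add y z _ _ hy hz =>
      rw [mul_add]
      exact add_mem hy hz
    | smul r y _ hy =>
      rw [Algebra.smul_def, mul_left_comm]
      exact mul_mem (hR r) hy
  exact hmem c hc2

/-- A valuation ring of `K` over the Dedekind domain `C` with fraction field `K` consists of
fractions of `C` with denominator of value one. -/
theorem frac_of_dedekind (C : Subring K) [IsDedekindDomain C] [IsFractionRing C K]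
    (W : ValuationSubring K) (hC : ∀ c ∈ C, c ∈ W) {u : K} (hu : u ∈ W) :
    ∃ a b : K, a ∈ C ∧ b ∈ C ∧ W.valuation b = 1 ∧ u = a / b := by
  let φ : C →+* W := (W.subtype.codRestrict W.toSubring (fun x => x.2)).comp
    { toFun := fun a => ⟨a, hC a a.2⟩
      map_one' := rfl
      map_mul' := fun _ _ => rfl
      map_zero' := rfl
      map_add' := fun _ _ => rfl }
  have hφ : ∀ a : C, (φ a : K) = a := fun a => rfl
  let q : Ideal C := (maximalIdeal W).comap φ
  have hq : ∀ a : C, a ∈ q ↔ W.valuation (a : K) < 1 := by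
    intro a
    rw [Ideal.mem_comap, ← hφ a]
    exact ValuationSubring.valuation_lt_one_iff W (φ a)
  have hq1 : ∀ a : C, a ∉ q → W.valuation (a : K) = 1 := by
    intro a ha
    rw [hq] at ha
    exact le_antisymm ((ValuationSubring.valuation_le_one_iff W _).2 (hC a a.2)) (not_lt.1 ha)
  haveI hqp : q.IsPrime := inferInstance
  -- the localisation at `q` is a valuation ring
  haveI : ValuationRing (Localization.AtPrime q) := by
    by_cases h0 : q = ⊥
    · have h1 : IsField (Localization.AtPrime q) := by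
        rw [IsLocalRing.isField_iff_maximalIdeal_eq, ← Localization.AtPrime.map_eq_maximalIdeal]
        exact (Ideal.map_eq_bot_iff_of_injective
          (IsLocalization.injective _ q.primeCompl_le_nonZeroDivisors)).2 h0
      letI := h1.toField
      infer_instance
    · haveI : IsDiscreteValuationRing (Localization.AtPrime q) :=
        IsLocalization.AtPrime.isDiscreteValuationRing_of_dedekind_domain C h0 _
      infer_instance
  obtain ⟨a, b, hb, rfl⟩ := IsFractionRing.div_surjective (A := C) u
  change (a : K) / (b : K) ∈ W at hu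
  change ∃ c d : K, c ∈ C ∧ d ∈ C ∧ W.valuation d = 1 ∧ (a : K) / (b : K) = c / d
  have hb0 : (b : K) ≠ 0 := by
    intro h
    exact nonZeroDivisors.ne_zero hb (Subtype.ext h)
  have hinj : Function.Injective (algebraMap C (Localization.AtPrime q)) :=
    IsLocalization.injective _ q.primeCompl_le_nonZeroDivisors
  have key : ∀ a b : C, (algebraMap C (Localization.AtPrime q) b ∣
      algebraMap C (Localization.AtPrime q) a) → ∃ c s : C, s ∉ q ∧ a * s = b * c := by
    rintro a b ⟨z, hz⟩
    obtain ⟨⟨c, s⟩, hcs⟩ := IsLocalization.surj q.primeCompl z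
    have : algebraMap C (Localization.AtPrime q) (a * s) = algebraMap C _ (b * c) := by
      rw [map_mul, hz, mul_assoc, hcs, map_mul]
    exact ⟨c, s, s.2, hinj this⟩
  rcases ValuationRing.dvd_total (algebraMap C (Localization.AtPrime q) a)
    (algebraMap C (Localization.AtPrime q) b) with h | h
  · -- `a` divides `b`
    obtain ⟨c, s, hs, h1⟩ := key b a h
    have h2 : (b : K) * s = a * c := by exact_mod_cast congrArg (Subtype.val : C → K) h1
    have hs1 := hq1 s hs
    have hs0 : (s : K) ≠ 0 := ne_zero_of_val_one hs1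
    by_cases ha0 : (a : K) = 0
    · exact ⟨0, 1, zero_mem _, one_mem _, map_one _, by rw [ha0]; simp⟩
    have hc0 : (c : K) ≠ 0 := by
      intro h0
      rw [h0, mul_zero] at h2
      exact (mul_ne_zero hb0 hs0) h2
    have h3 : (a : K) / b = s / c := by
      rw [div_eq_div_iff hb0 hc0, ← h2, mul_comm]
    refine ⟨s, c, s.2, c.2, ?_, h3⟩
    refine le_antisymm ((ValuationSubring.valuation_le_one_iff W _).2 (hC c c.2)) ?_
    have h4 := (ValuationSubring.valuation_le_one_iff W _).2 hu
    rw [h3, map_div₀, hs1, one_div] at h4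
    exact (inv_le_one₀ (by rw [Valuation.pos_iff]; exact hc0)).1 h4
  · obtain ⟨c, s, hs, h1⟩ := key a b h
    have h2 : (a : K) * s = b * c := by exact_mod_cast congrArg (Subtype.val : C → K) h1
    have hs1 := hq1 s hs
    have hs0 : (s : K) ≠ 0 := ne_zero_of_val_one hs1
    refine ⟨c, s, c.2, s.2, hs1, ?_⟩
    rw [div_eq_div_iff hb0 hs0, h2, mul_comm]

open scoped IntermediateField.algebraAdjoinAdjoin in
/-- **Q3 (a)** For an affine curve over a perfect field there is one bound for the denominators of
the elements of all places with centre on the curve. -/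
theorem exists_den [PerfectField k] (B : Subalgebra k K) (hfg : B.FG) (hfrac : IsFractionRing B K)
    (hB : ¬ IsField B) (hdim : ∀ p : Ideal B, p.IsPrime → p ≠ ⊥ → p.IsMaximal) :
    ∃ d ∈ B, d ≠ 0 ∧ ∀ W : ValuationSubring K, (∀ b ∈ B, b ∈ W) → ∀ u ∈ W,
      ∃ a b : K, a ∈ B ∧ b ∈ B ∧ W.valuation (b / d) = 1 ∧ u = a / b := by
  obtain ⟨t, ht⟩ := Sing.exists_span B hfg hfrac hB hdim
  haveI hft : Algebra.FiniteType k B := (Subalgebra.fg_iff_finiteType B).1 hfg
  haveI : Algebra.EssFiniteType B K := Algebra.EssFiniteType.of_isLocalization K (nonZeroDivisors B)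
  haveI : Algebra.EssFiniteType k K := Algebra.EssFiniteType.comp k B K
  let R := Algebra.adjoin k {(t : K)}
  let E := IntermediateField.adjoin k {(t : K)}
  haveI : IsPrincipalIdealRing R := by
    refine IsPrincipalIdealRing.of_surjective
      (Polynomial.aeval (R := k) (⟨t, Algebra.self_mem_adjoin_singleton k _⟩ : R)) ?_
    rintro ⟨y, hy⟩
    have hy2 : y ∈ (Polynomial.aeval (R := k) (t : K)).range := by
      rw [← Algebra.adjoin_singleton_eq_range_aeval]
      exact hy
    obtain ⟨p, hp⟩ := hy2
    refine ⟨p, Subtype.ext ?_⟩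
    refine Eq.trans ?_ hp
    change R.val (Polynomial.aeval (R := k) (⟨t, _⟩ : R) p) = _
    rw [← Polynomial.aeval_algHom_apply]
    rfl
  haveI : Algebra.FormallyUnramified E K :=
    Sing.unramified_of_span (k := k) (R := E)
      (⟨t, IntermediateField.mem_adjoin_simple_self k _⟩ : E) ht
  haveI : Algebra.EssFiniteType E K := Algebra.EssFiniteType.of_comp k E K
  haveI : Algebra.IsSeparable E K := Algebra.FormallyUnramified.isSeparable E K
  haveI : FiniteDimensional E K := Algebra.FormallyUnramified.finite_of_free E K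
  have hRB : ∀ r : R, algebraMap R K r ∈ B := by
    intro r
    have : R ≤ B := Algebra.adjoin_le (Set.singleton_subset_iff.2 t.2)
    exact this r.2
  obtain ⟨d, hd, hd0, hdc⟩ := exists_conductor (R := R) (E := E) B hfrac hRB
  refine ⟨d, hd, hd0, ?_⟩
  intro W hW u hu
  haveI h1 : IsDedekindDomain (integralClosure R K) := integralClosure.isDedekindDomain R E K
  haveI h2 : IsFractionRing (integralClosure R K) K :=
    integralClosure.isFractionRing_of_finite_extension E K
  have hCW : ∀ c ∈ integralClosure R K, c ∈ W := by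
    intro c hc
    obtain ⟨p, hp, hpc⟩ := hc
    let ψ : R →+* W := (algebraMap R K).codRestrict W.toSubring fun r => hW _ (hRB r)
    have h3 : IsIntegral W c := by
      refine ⟨p.map ψ, hp.map ψ, ?_⟩
      rw [Polynomial.eval₂_map]
      exact hpc
    obtain ⟨y, hy⟩ := (IsIntegrallyClosed.isIntegral_iff (R := W) (K := K)).1 h3
    rw [← hy]
    exact y.2
  obtain ⟨a, b, ha, hb, hb1, rfl⟩ :=
    @frac_of_dedekind K _ (integralClosure R K).toSubring h1 h2 W hCW u hu
  refine ⟨d * a, d * b, hdc a ha, hdc b hb, ?_, ?_⟩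
  · rw [mul_div_cancel_left₀ _ hd0, hb1]
  · rw [mul_div_mul_left _ _ hd0]

/-- **Q3 (a)** with orders. -/
theorem exists_den_ord [PerfectField k] (B : Subalgebra k K) (hfg : B.FG)
    (hfrac : IsFractionRing B K) (hB : ¬ IsField B)
    (hdim : ∀ p : Ideal B, p.IsPrime → p ≠ ⊥ → p.IsMaximal) {W : ValuationSubring K}
    (hW : IsDiscreteValuationRing W) (hBW : ∀ b ∈ B, b ∈ W) : ∃ e : ℕ, Den B W e := by
  obtain ⟨d, hd, hd0, h⟩ := exists_den B hfg hfrac hB hdim
  have hd1 : 0 ≤ ord W d := (ord_nonneg_iff hW hd0).2 (hBW d hd)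
  refine ⟨(ord W d).toNat, fun u hu => ?_⟩
  obtain ⟨a, b, ha, hb, hb1, rfl⟩ := h W hBW u hu
  have hb0 : b ≠ 0 := by
    rintro rfl
    rw [zero_div, map_zero] at hb1
    exact zero_ne_one hb1
  refine ⟨a, b, ha, hb, hb0, ?_, rfl⟩
  have h1 := (ord_eq_zero_iff hW (div_ne_zero hb0 hd0)).2 hb1
  rw [ord_div hW hb0 hd0] at h1
  omega

/-- **Q3 (b)** One quadratic transform improves the denominators. -/
theorem Den.step {B B' : Subalgebra k K} {W : ValuationSubring K} (hW : IsDiscreteValuationRing W)
    {e : ℕ} (h : Den B W (e + 1)) (hB : B ≤ B') {x : K} (hx0 : x ≠ 0) (hx : 0 < ord W x)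
    (hxB : ∀ b ∈ B, b ≠ 0 → 0 < ord W b → b / x ∈ B') : Den B' W e := by
  intro u hu
  obtain ⟨a, b, ha, hb, hb0, hbe, rfl⟩ := h u hu
  by_cases h1 : ord W b ≤ e
  · exact ⟨a, b, hB ha, hB hb, hb0, h1, rfl⟩
  have h2 : ord W b = e + 1 := by
    push_cast at hbe
    omega
  by_cases ha0 : a = 0
  · refine ⟨0, 1, zero_mem _, one_mem _, one_ne_zero, ?_, by rw [ha0]; simp⟩
    rw [ord_one W hW]
    exact Int.natCast_nonneg e
  have h3 : 0 ≤ ord W (a / b) := (ord_nonneg_iff hW (div_ne_zero ha0 hb0)).2 hu
  rw [ord_div hW ha0 hb0] at h3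
  refine ⟨a / x, b / x, hxB a ha ha0 (by omega), hxB b hb hb0 (by omega), div_ne_zero hb0 hx0, ?_,
    ?_⟩
  · rw [ord_div hW hb0 hx0]
    omega
  · rw [div_div_div_cancel_right₀ hx0]

/-- **Q3 (c)** With denominators of order zero the place is the local ring of the curve. -/
theorem Den.zero {B : Subalgebra k K} {W : ValuationSubring K} (hW : IsDiscreteValuationRing W)
    (h : Den B W 0) (hBW : ∀ b ∈ B, b ∈ W) :
    ∀ u ∈ W, ∃ a b : K, a ∈ B ∧ b ∈ B ∧ W.valuation b = 1 ∧ u = a / b := by
  intro u hu
  obtain ⟨a, b, ha, hb, hb0, hbe, rfl⟩ := h u hu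
  have h1 : 0 ≤ ord W b := (ord_nonneg_iff hW hb0).2 (hBW b hb)
  refine ⟨a, b, ha, hb, (ord_eq_zero_iff hW hb0).1 ?_, rfl⟩
  push_cast at hbe
  omega

end Pool.Agent.Lib.MP_b197b4_ntQ
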