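import Mathlib

/-!
# MP_b197b4_nt, project K1: weights of polynomials in three variables

The weights of `x, y, z` are `1, d, d`; the innermost variable is `x`, the outermost is `z`.
-/

set_option autoImplicit false

namespace Pool.Agent.Lib.MP_b197b4_ntK.Q

open Polynomial

section Psi

variable {k : Type} [Field k]

/-- `p(x, y, z) ↦ p(x T, y T ^ d, z T ^ d)`, with values in the polynomials in `T` over a ring
containing `x, y, z`. -/
noncomputable def psiR {R : Type} [CommRing R] [Algebra k R] (d : ℕ) (x y z : R) :
    k[X][X][X] →+* R[X] :=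
  eval₂RingHom (eval₂RingHom (eval₂RingHom (C.comp (algebraMap k R)) (C x * X)) (C y * X ^ d))
    (C z * X ^ d)

theorem psiR_monomial {R : Type} [CommRing R] [Algebra k R] (d : ℕ) (x y z : R) (c i j : ℕ)
    (a : k) : psiR d x y z (monomial j (monomial i (monomial c a))) =
      monomial (c + d * i + d * j) (algebraMap k R a * x ^ c * y ^ i * z ^ j) := by
  unfold psiR
  simp only [coe_eval₂RingHom, eval₂_monomial, RingHom.comp_apply]
  simp only [← C_mul_X_pow_eq_monomial, map_mul, map_pow, mul_pow, pow_add, pow_mul]
  ring

/-- `p(x, y, z) ↦ p(x T, y T ^ d, z T ^ d)`. -/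
noncomputable def psi (d : ℕ) : k[X][X][X] →+* Polynomial k[X][X][X] :=
  psiR (k := k) (R := k[X][X][X]) d (C (C X)) (C X) X

theorem psi_monomial (d c i j : ℕ) (a : k) :
    psi d (monomial j (monomial i (monomial c a))) =
      monomial (c + d * i + d * j) (monomial j (monomial i (monomial c a))) := by
  unfold psi
  rw [psiR_monomial]
  congr 1
  have h1 : algebraMap k k[X][X][X] a = C (C (C a)) := rfl
  rw [h1]
  simp only [← C_mul_X_pow_eq_monomial, map_mul, map_pow]

theorem psi_coeff (d : ℕ) (p : k[X][X][X]) (e j i c : ℕ) :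
    ((((psi d p).coeff e).coeff j).coeff i).coeff c =
      if e = c + d * i + d * j then ((p.coeff j).coeff i).coeff c else 0 := by
  induction p using Polynomial.induction_on' with
  | add p q hp hq =>
    rw [map_add]
    simp only [coeff_add, hp, hq]
    split_ifs <;> simp
  | monomial j' q =>
    induction q using Polynomial.induction_on' with
    | add p q hp hq =>
      rw [map_add (monomial j'), map_add]
      simp only [coeff_add, hp, hq]
      split_ifs <;> simp
    | monomial i' s =>
      induction s using Polynomial.induction_on' with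
      | add p q hp hq =>
        rw [map_add (monomial i'), map_add (monomial j'), map_add]
        simp only [coeff_add, hp, hq]
        split_ifs <;> simp
      | monomial c' a =>
        rw [psi_monomial]
        by_cases hj : j' = j
        · subst hj
          by_cases hi : i' = i
          · subst hi
            by_cases hc : c' = c
            · subst hc
              by_cases he : e = c' + d * i' + d * j'
              · subst he
                simp
              · rw [coeff_monomial, if_neg (Ne.symm he), if_neg he]
                simp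
            · rw [coeff_monomial_same, coeff_monomial_same, coeff_monomial_of_ne _ (Ne.symm hc),
                ite_self, coeff_monomial]
              split_ifs
              · rw [coeff_monomial_same, coeff_monomial_same, coeff_monomial_of_ne _ (Ne.symm hc)]
              · simp
          · rw [coeff_monomial_same, coeff_monomial_of_ne _ (Ne.symm hi), coeff_zero,
              ite_self, coeff_monomial]
            split_ifs
            · rw [coeff_monomial_same, coeff_monomial_of_ne _ (Ne.symm hi), coeff_zero]
            · simp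
        · rw [coeff_monomial_of_ne _ (Ne.symm hj), coeff_zero, coeff_zero,
            ite_self, coeff_monomial]
          split_ifs
          · rw [coeff_monomial_of_ne _ (Ne.symm hj), coeff_zero, coeff_zero]
          · simp

/-- A coefficient of weight larger than the degree vanishes. -/
theorem weight_le {d : ℕ} {p : k[X][X][X]} {m : ℕ} (h : (psi d p).degree ≤ m) {i j : ℕ}
    (hij : (p.coeff j).coeff i ≠ 0) : ((p.coeff j).coeff i).natDegree + d * (i + j) ≤ m := by
  set c := ((p.coeff j).coeff i).natDegree with hc
  have h1 : ((p.coeff j).coeff i).coeff c ≠ 0 := by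
    rw [hc]
    exact leadingCoeff_ne_zero.2 hij
  have h2 := psi_coeff d p (c + d * i + d * j) j i c
  rw [if_pos rfl] at h2
  have h3 : (psi d p).coeff (c + d * i + d * j) ≠ 0 := by
    intro h0
    rw [h0] at h2
    simp only [coeff_zero] at h2
    exact h1 h2.symm
  have h4 := le_degree_of_ne_zero h3
  have h5 : ((c + d * i + d * j : ℕ) : WithBot ℕ) ≤ m := h4.trans h
  have h6 : c + d * i + d * j ≤ m := by exact_mod_cast h5
  rw [mul_add]
  omega

theorem le_degree_psi {d : ℕ} {p : k[X][X][X]} (hp : p.Monic) :
    ((d * p.natDegree : ℕ) : WithBot ℕ) ≤ (psi d p).degree := by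
  have h2 := psi_coeff d p (0 + d * 0 + d * p.natDegree) p.natDegree 0 0
  rw [if_pos rfl] at h2
  have h1 : p.coeff p.natDegree = 1 := hp
  rw [h1] at h2
  have h3 : (psi d p).coeff (0 + d * 0 + d * p.natDegree) ≠ 0 := by
    intro h0
    rw [h0] at h2
    simp at h2
  have h4 := le_degree_of_ne_zero h3
  simpa using h4

theorem psi_ne_zero {d : ℕ} {p : k[X][X][X]} (hp : p ≠ 0) : psi d p ≠ 0 := by
  intro h0
  apply hp
  ext j i c
  have h2 := psi_coeff d p (c + d * i + d * j) j i c
  rw [if_pos rfl, h0] at h2
  simpa using h2.symm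

end Psi

section Ev

variable {k F : Type} [Field k] [Field F] [Algebra k F]

/-- The value of `p` at `(X, Y)`. -/
noncomputable def ev2 (k : Type) {F : Type} [Field k] [Field F] [Algebra k F] (X Y : F) :
    k[X][X] →+* F :=
  eval₂RingHom (aeval X : k[X] →ₐ[k] F).toRingHom Y

/-- The value of `p` at `(X, Y, Z)`. -/
noncomputable def evf (k : Type) {F : Type} [Field k] [Field F] [Algebra k F] (X Y Z : F) :
    k[X][X][X] →+* F :=
  eval₂RingHom (ev2 k X Y) Z

/-- `a` has weight at most `p - q`. -/
def Wb (d : ℕ) (a : k[X][X]) (p q : ℕ) : Prop :=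
  (psi d (C a)).degree + (q : WithBot ℕ) ≤ (p : WithBot ℕ)

theorem Wb.add {d : ℕ} {a b : k[X][X]} {p q : ℕ} (ha : Wb d a p q) (hb : Wb d b p q) :
    Wb d (a + b) p q := by
  unfold Wb at *
  rw [C_add, map_add]
  calc (psi d (C a) + psi d (C b)).degree + (q : WithBot ℕ)
      ≤ max (psi d (C a)).degree (psi d (C b)).degree + (q : WithBot ℕ) :=
        add_le_add_left (degree_add_le _ _) _
    _ ≤ p := by
      rcases max_choice (psi d (C a)).degree (psi d (C b)).degree with h | h
      · rw [h]
        exact ha
      · rw [h]
        exact hb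

theorem Wb.mul {d : ℕ} {a b : k[X][X]} {p q p' q' : ℕ} (ha : Wb d a p q) (hb : Wb d b p' q') :
    Wb d (a * b) (p + p') (q + q') := by
  unfold Wb at *
  rw [C_mul, map_mul, degree_mul]
  push_cast
  calc (psi d (C a)).degree + (psi d (C b)).degree + ((q : WithBot ℕ) + (q' : WithBot ℕ))
      = ((psi d (C a)).degree + (q : WithBot ℕ)) + ((psi d (C b)).degree + (q' : WithBot ℕ)) := by
        abel
    _ ≤ p + p' := add_le_add ha hb

theorem Wb.zero (d p q : ℕ) : Wb d (0 : k[X][X]) p q := by
  unfold Wb
  rw [C_0, map_zero, degree_zero, WithBot.bot_add]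
  exact bot_le

theorem Wb.const (d : ℕ) (c : k) (p : ℕ) : Wb d (C (C c) : k[X][X]) p p := by
  unfold Wb
  have h1 : psi d (C (C (C c)) : k[X][X][X]) = C (algebraMap k k[X][X][X] c) := by
    simp [psi, psiR]
  rw [h1]
  calc (C (algebraMap k k[X][X][X] c)).degree + (p : WithBot ℕ) ≤ 0 + (p : WithBot ℕ) :=
        add_le_add_left degree_C_le _
    _ = p := zero_add _

theorem Wb.x (d : ℕ) : Wb d (C X : k[X][X]) 1 0 := by
  unfold Wb
  have h1 : psi d (C (C X) : k[X][X][X]) = C (C (C X)) * X := by
    simp [psi, psiR]
  rw [h1, Nat.cast_zero, add_zero, degree_C_mul_X (by simp)]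
  simp

theorem Wb.y (d : ℕ) : Wb d (X : k[X][X]) d 0 := by
  unfold Wb
  have h1 : psi d (C X : k[X][X][X]) = C (C X) * X ^ d := by
    simp [psi, psiR]
  rw [h1, Nat.cast_zero, add_zero, degree_C_mul_X_pow d (by simp)]

theorem Wb.mono {d : ℕ} {a : k[X][X]} {p q p' : ℕ} (ha : Wb d a p q) (h : p ≤ p') :
    Wb d a p' q := ha.trans (by exact_mod_cast h)

end Ev

end Pool.Agent.Lib.MP_b197b4_ntK.Q
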