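import Mathlib
import Pool.Agent.Lib.MP_b197b4_ntQ.WtA

/-!
# MP_b197b4_nt, project K1: the equation of the coordinates

If `Z` acts on a finite family by a matrix of polynomials in `X, Y` with the right weights then the
minimal equation of `Z` over `k[X, Y]` has the right weights.
-/

set_option autoImplicit false

namespace Pool.Agent.Lib.MP_b197b4_ntK.Q

open Polynomial

variable {k F : Type} [Field k] [Field F] [Algebra k F]

theorem evf_C (X Y Z : F) (a : k[X][X]) : evf k X Y Z (C a) = ev2 k X Y a := by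
  simp [evf]

theorem evf_X (X Y Z : F) : evf k X Y Z Polynomial.X = Z := by
  simp [evf]

theorem psi_X (d : ℕ) : psi d (X : k[X][X][X]) = C X * X ^ d := by
  simp [psi, psiR]

open Classical in
theorem gen_charpoly {B : Type} [CommRing B] (g : B →+* F) (Z : F) {ι : Type} [Fintype ι]
    (E : ι → F) (hE : ∃ i, E i ≠ 0) (a : ι → ι → B) (hZ : ∀ i, Z * E i = ∑ j, g (a i j) * E j) :
    eval₂ g Z (Matrix.of a).charpoly = 0 := by
  have hdet : eval₂RingHom g Z (Matrix.of a).charpoly =
      ((eval₂RingHom g Z).mapMatrix (Matrix.charmatrix (Matrix.of a))).det := RingHom.map_det _ _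
  have h0 : ((eval₂RingHom g Z).mapMatrix (Matrix.charmatrix (Matrix.of a))).det = 0 := by
    rw [← Matrix.exists_mulVec_eq_zero_iff]
    refine ⟨E, ?_, ?_⟩
    · obtain ⟨i, hi⟩ := hE
      intro h0
      exact hi (congrFun h0 i)
    · funext i
      rw [Matrix.mulVec, dotProduct, Pi.zero_apply]
      have h1 : ∀ j, ((eval₂RingHom g Z).mapMatrix (Matrix.charmatrix (Matrix.of a))) i j =
          (if i = j then Z else 0) - g (a i j) := by
        intro j
        rw [RingHom.mapMatrix_apply, Matrix.map_apply]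
        rcases eq_or_ne i j with h | h
        · subst h
          rw [Matrix.charmatrix_apply_eq, map_sub, if_pos rfl]
          simp
        · rw [Matrix.charmatrix_apply_ne _ _ _ h, map_neg, if_neg h, zero_sub]
          simp
      rw [Finset.sum_congr rfl (fun j _ => by rw [h1 j, sub_mul])]
      rw [Finset.sum_sub_distrib, ← hZ i]
      simp
  rw [h0] at hdet
  exact hdet

open Classical in
theorem gen_degree {B R : Type} [CommRing B] [CommRing R] [IsDomain R] (φ : B[X] →+* R[X])
    {ι : Type} [Fintype ι] (a : ι → ι → B) (m : ι → ℕ) (d : ℕ)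
    (hX : (φ X).degree ≤ (d : WithBot ℕ))
    (ha : ∀ i j, (φ (C (a i j))).degree + ((m j : ℕ) : WithBot ℕ) ≤ ((d + m i : ℕ) : WithBot ℕ)) :
    (φ (Matrix.of a).charpoly).degree ≤ ((d * Fintype.card ι : ℕ) : WithBot ℕ) := by
  have hdet : φ (Matrix.of a).charpoly = (φ.mapMatrix (Matrix.charmatrix (Matrix.of a))).det :=
    RingHom.map_det _ _
  rw [hdet, Matrix.det_apply]
  refine (degree_sum_le _ _).trans ?_
  rw [Finset.sup_le_iff]
  intro σ _
  have h1 : ∀ i j, ((φ.mapMatrix (Matrix.charmatrix (Matrix.of a))) i j).degree +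
      ((m j : ℕ) : WithBot ℕ) ≤ ((d + m i : ℕ) : WithBot ℕ) := by
    intro i j
    rw [RingHom.mapMatrix_apply, Matrix.map_apply]
    have h2 := ha i j
    rcases eq_or_ne i j with h | h
    · subst h
      rw [Matrix.charmatrix_apply_eq, map_sub]
      have h3 : (φ X - φ (C (Matrix.of a i i))).degree ≤
          max (φ X).degree (φ (C (Matrix.of a i i))).degree := degree_sub_le _ _
      rcases max_choice (φ X).degree (φ (C (Matrix.of a i i))).degree with h4 | h4
      · rw [h4] at h3
        push_cast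
        exact add_le_add_left (h3.trans hX) _
      · rw [h4] at h3
        exact (add_le_add_left h3 _).trans h2
    · rw [Matrix.charmatrix_apply_ne _ _ _ h, map_neg, degree_neg]
      exact h2
  have h5 : (∏ i, (φ.mapMatrix (Matrix.charmatrix (Matrix.of a))) (σ i) i).degree ≤
      ((d * Fintype.card ι : ℕ) : WithBot ℕ) := by
    rw [degree_prod]
    have h6 : ∑ i, (((φ.mapMatrix (Matrix.charmatrix (Matrix.of a))) (σ i) i).degree +
        ((m i : ℕ) : WithBot ℕ)) ≤ ∑ i, ((d + m (σ i) : ℕ) : WithBot ℕ) :=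
      Finset.sum_le_sum fun i _ => h1 (σ i) i
    rw [Finset.sum_add_distrib, ← Nat.cast_sum, ← Nat.cast_sum, Finset.sum_add_distrib,
      Equiv.sum_comp σ m, Nat.cast_add] at h6
    have h7 : ∑ _i : ι, d = d * Fintype.card ι := by
      rw [Finset.sum_const, Finset.card_univ, smul_eq_mul, mul_comm]
    rw [h7] at h6
    exact WithBot.le_of_add_le_add_right (WithBot.natCast_ne_bot _) h6
  have h8 : (Equiv.Perm.sign σ • ∏ i, (φ.mapMatrix (Matrix.charmatrix (Matrix.of a))) (σ i) i).degree ≤
      (∏ i, (φ.mapMatrix (Matrix.charmatrix (Matrix.of a))) (σ i) i).degree := by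
    rcases Int.units_eq_one_or (Equiv.Perm.sign σ) with h | h
    · rw [h, one_smul]
    · rw [h, Units.neg_smul, one_smul, degree_neg]
  exact h8.trans h5

open Classical in
/-- The characteristic polynomial. -/
theorem exists_charpoly {X Y Z : F} {d : ℕ} {ι : Type} [Fintype ι] (E : ι → F) (hE : ∃ i, E i ≠ 0)
    (m : ι → ℕ) (a : ι → ι → k[X][X]) (ha : ∀ i j, Wb d (a i j) (d + m i) (m j))
    (hZ : ∀ i, Z * E i = ∑ j, ev2 k X Y (a i j) * E j) :
    ∃ P : k[X][X][X], P.Monic ∧ evf k X Y Z P = 0 ∧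
      (psi d P).degree ≤ ((d * P.natDegree : ℕ) : WithBot ℕ) := by
  refine ⟨(Matrix.of a).charpoly, Matrix.charpoly_monic _, ?_, ?_⟩
  · exact gen_charpoly (ev2 k X Y) Z E hE a hZ
  · rw [Matrix.charpoly_natDegree_eq_dim]
    have h := gen_degree (B := k[X][X]) (R := k[X][X][X]) (psi d) a m d
    refine h ?_ ha
    rw [psi_X]
    exact degree_C_mul_X_pow_le _ _

/-- The minimal equation. -/
theorem exists_minimal {X Y Z : F} {d : ℕ} (hinj : ∀ p : k[X][X], ev2 k X Y p = 0 → p = 0)
    (P : k[X][X][X]) (hP : P.Monic) (hPZ : evf k X Y Z P = 0)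
    (hPd : (psi d P).degree ≤ ((d * P.natDegree : ℕ) : WithBot ℕ)) :
    ∃ f : k[X][X][X], f.Monic ∧ Irreducible f ∧
      (∀ i j, (f.coeff j).coeff i ≠ 0 →
        ((f.coeff j).coeff i).natDegree + d * (i + j) ≤ d * f.natDegree) ∧
      ∀ p : k[X][X][X], evf k X Y Z p = 0 ↔ f ∣ p := by
  let _ : Algebra k[X][X] F := (ev2 k X Y).toAlgebra
  have hmap : algebraMap k[X][X] F = ev2 k X Y := rfl
  have : FaithfulSMul k[X][X] F := by
    rw [faithfulSMul_iff_algebraMap_injective, hmap]
    exact (injective_iff_map_eq_zero _).2 hinj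
  have hev : ∀ p : k[X][X][X], aeval Z p = evf k X Y Z p := fun p => rfl
  have hint : IsIntegral k[X][X] Z := ⟨P, hP, hPZ⟩
  set f := minpoly k[X][X] Z with hf
  have hfm : f.Monic := minpoly.monic hint
  have hker : ∀ p : k[X][X][X], evf k X Y Z p = 0 ↔ f ∣ p := fun p => by
    rw [← hev]
    exact minpoly.isIntegrallyClosed_dvd_iff hint p
  refine ⟨f, hfm, minpoly.irreducible hint, fun i j hij => ?_, hker⟩
  obtain ⟨h, hh⟩ := (hker P).1 hPZ
  have hhm : h.Monic := by
    rw [hh] at hP
    exact hfm.of_mul_monic_left hP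
  have h1 : P.natDegree = f.natDegree + h.natDegree := by
    rw [hh]
    exact hfm.natDegree_mul hhm
  have h2 := le_degree_psi (d := d) hhm
  have h3 : (psi d f).degree ≤ ((d * f.natDegree : ℕ) : WithBot ℕ) := by
    rw [hh, map_mul, degree_mul, ← hh, h1, mul_add] at hPd
    push_cast at hPd h2 ⊢
    have h4 : (psi d f).degree + ((d : WithBot ℕ) * (h.natDegree : WithBot ℕ)) ≤
        (d : WithBot ℕ) * (f.natDegree : WithBot ℕ) + (d : WithBot ℕ) * (h.natDegree : WithBot ℕ) :=
      (add_le_add_right h2 _).trans hPd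
    have h5 : ((d : WithBot ℕ) * (h.natDegree : WithBot ℕ)) ≠ ⊥ := by
      have : ((d : WithBot ℕ) * (h.natDegree : WithBot ℕ)) = ((d * h.natDegree : ℕ) : WithBot ℕ) := by
        push_cast
        rfl
      rw [this]
      exact WithBot.natCast_ne_bot _
    exact WithBot.le_of_add_le_add_right h5 h4
  exact weight_le h3 hij

end Pool.Agent.Lib.MP_b197b4_ntK.Q
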