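import Mathlib
import Pool.Agent.Lib.MP_b197b4_ntQ.WtB
import Pool.Agent.Lib.MP_b197b4_ntK.NoZero
import Pool.Agent.Lib.MP_b197b4_ntK.KLocN
import Pool.Agent.Lib.MP_b197b4_ntG.Gen

/-!
# MP_b197b4_nt, project K1: the equation of the surface in the coordinates `x1 / x0, y, z`
-/

set_option autoImplicit false

namespace Pool.Agent.Lib.MP_b197b4_ntK.Q

open Polynomial

variable {k F : Type} [Field k] [Field F] [Algebra k F] {n : ℕ} {x : Fin (n + 1) → F}

theorem exists_finset_hom (m : ℕ) : ∃ S : Finset F, Submodule.span k (S : Set F) = hom k x m := by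
  have h1 : (hom k x m).FG := by
    unfold hom
    exact Submodule.FG.pow (Submodule.fg_span (Set.finite_range x)) m
  exact h1

theorem ev2_C (X Y : F) (a : k[X]) : ev2 k X Y (C a) = aeval X a := by
  simp [ev2]

theorem ev2_X (X Y : F) : ev2 k X Y Polynomial.X = Y := by
  simp [ev2]

theorem ev2_const (X Y : F) (c : k) : ev2 k X Y (C (C c)) = algebraMap k F c := by
  simp [ev2]

theorem ev2_CX (X Y : F) : ev2 k X Y (C Polynomial.X) = X := by
  simp [ev2]

/-- The three forms `x0, x1, y` have no common zero. -/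
def NoZ (k : Type) {F : Type} [Field k] [Field F] [Algebra k F] {n : ℕ} (x : Fin (n + 1) → F)
    (d : ℕ) (x0 x1 y : F) : Prop :=
  ∀ O ∈ Points (charts k x), NotZero x O 1 x0 ∨ NotZero x O 1 x1 ∨ NotZero x O d y

/-- Finitely many generators of the chart over the polynomials in `x1 / x0, y / x0 ^ d`. -/
theorem exists_family (hx : ∀ i, x i ≠ 0) {d : ℕ} (hd : 1 ≤ d) {x0 x1 y : F}
    (h0 : x0 ∈ Submodule.span k (Set.range x)) (h1 : x1 ∈ Submodule.span k (Set.range x))
    (hx0 : x0 ≠ 0) (hy : y ∈ hom k x d) (hz : NoZ k x d x0 x1 y) :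
    ∃ (ι : Type) (_ : Fintype ι) (E : ι → F) (m : ι → ℕ),
      (∀ i, ∃ e ∈ hom k x (m i), E i = e / x0 ^ m i) ∧ (∃ i, E i ≠ 0) ∧
      ∀ (p : ℕ) (h : F), h ∈ hom k x p → ∃ a : ι → k[X][X], (∀ j, Wb d (a j) p (m j)) ∧
        h / x0 ^ p = ∑ j, ev2 k (x1 / x0) (y / x0 ^ d) (a j) * E j := by
  classical
  obtain ⟨M₀, hM₀, hcomb⟩ := exists_comb_fin hx (ι := Fin 3) ![x0, x1, y] ![1, 1, d]
    (by
      intro j
      fin_cases j
      · exact mem_hom_one.2 h0
      · exact mem_hom_one.2 h1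
      · exact hy)
    (by
      intro O hO
      rcases hz O hO with h | h | h
      · exact ⟨0, h⟩
      · exact ⟨1, h⟩
      · exact ⟨2, h⟩)
  have hM1 : 1 ≤ M₀ := hM₀ 0
  have hMd : d ≤ M₀ := hM₀ 2
  choose S hS using fun m => exists_finset_hom (k := k) (x := x) m
  refine ⟨Σ m : Fin M₀, {e // e ∈ S m}, inferInstance, fun i => (i.2 : F) / x0 ^ (i.1 : ℕ),
    fun i => i.1, fun i => ⟨i.2, ?_, rfl⟩, ?_, ?_⟩
  · rw [← hS]
    exact Submodule.subset_span i.2.2
  · have h2 : (1 : F) ∈ Submodule.span k (S 0 : Set F) := by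
      rw [hS]
      exact one_mem_hom
    by_contra hcon
    push Not at hcon
    have h3 : Submodule.span k (S 0 : Set F) ≤ ⊥ := by
      rw [Submodule.span_le]
      intro e he
      have h4 := hcon ⟨⟨0, hM1⟩, ⟨e, he⟩⟩
      have h5 : e / x0 ^ 0 = 0 := h4
      rw [pow_zero, div_one] at h5
      exact h5
    exact one_ne_zero ((Submodule.mem_bot k).1 (h3 h2))
  · intro p
    induction p using Nat.strong_induction_on with
    | _ p ih =>
      intro h hh
      rcases lt_or_ge p M₀ with hp | hp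
      · rw [← hS] at hh
        obtain ⟨c, hc⟩ := Submodule.mem_span_finset.1 hh
        obtain ⟨-, hc2⟩ := hc
        refine ⟨fun j => if (j.1 : ℕ) = p then C (C (c j.2)) else 0, fun j => ?_, ?_⟩
        · dsimp only
          split_ifs with hj
          · exact (Wb.const d (c j.2) (j.1 : ℕ)).mono (le_of_eq hj)
          · exact Wb.zero _ _ _
        · rw [Fintype.sum_sigma, Finset.sum_eq_single (⟨p, hp⟩ : Fin M₀)]
          · rw [← hc2, Finset.sum_div, ← Finset.sum_coe_sort (S p)]
            refine Finset.sum_congr rfl fun e _ => ?_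
            dsimp only
            rw [if_pos rfl, ev2_const, Algebra.smul_def, mul_div_assoc]
          · intro m _ hm
            refine Finset.sum_eq_zero fun e _ => ?_
            dsimp only
            rw [if_neg (fun hc => hm (Fin.ext hc)), map_zero, zero_mul]
          · intro hc
            exact absurd (Finset.mem_univ _) hc
      · obtain ⟨g, hg, hgf⟩ := hcomb p hp h hh
        have g0 : g 0 ∈ hom k x (p - 1) := hg 0
        have g1 : g 1 ∈ hom k x (p - 1) := hg 1
        have g2 : g 2 ∈ hom k x (p - d) := hg 2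
        have hsum : h = x0 * g 0 + x1 * g 1 + y * g 2 := by
          rw [hgf, Fin.sum_univ_three]
          rfl
        obtain ⟨a0, ha0, e0⟩ := ih (p - 1) (by omega) _ g0
        obtain ⟨a1, ha1, e1⟩ := ih (p - 1) (by omega) _ g1
        obtain ⟨a2, ha2, e2⟩ := ih (p - d) (by omega) _ g2
        refine ⟨fun j => a0 j + C Polynomial.X * a1 j + Polynomial.X * a2 j, fun j => ?_, ?_⟩
        · refine ((ha0 j).mono (by omega)).add ?_ |>.add ?_
          · have := (Wb.x (k := k) d).mul (ha1 j)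
            rwa [zero_add, Nat.add_sub_cancel' (by omega)] at this
          · have := (Wb.y (k := k) d).mul (ha2 j)
            rwa [zero_add, Nat.add_sub_cancel' (by omega)] at this
        · have hx0p : x0 ^ p = x0 ^ (p - 1) * x0 := by
            rw [← pow_succ]
            congr 1
            omega
          have hx0p' : x0 ^ p = x0 ^ (p - d) * x0 ^ d := by
            rw [← pow_add]
            congr 1
            omega
          have h3 : h / x0 ^ p = g 0 / x0 ^ (p - 1) + x1 / x0 * (g 1 / x0 ^ (p - 1)) +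
              y / x0 ^ d * (g 2 / x0 ^ (p - d)) := by
            have n1 : x0 ^ (p - 1) ≠ 0 := pow_ne_zero _ hx0
            have n2 : x0 ^ (p - d) ≠ 0 := pow_ne_zero _ hx0
            have n3 : x0 ^ d ≠ 0 := pow_ne_zero _ hx0
            rw [hsum, add_div, add_div]
            congr 1
            · congr 1
              · rw [hx0p]
                field_simp
              · rw [hx0p]
                field_simp
            · rw [hx0p']
              field_simp
          rw [h3, e0, e1, e2, Finset.mul_sum, Finset.mul_sum, ← Finset.sum_add_distrib,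
            ← Finset.sum_add_distrib]
          refine Finset.sum_congr rfl fun j _ => ?_
          rw [map_add, map_add, map_mul, map_mul, ev2_CX, ev2_X]
          ring

/-- `eval₂` through a subalgebra. -/
theorem isIntegral_of_eval₂ {B : Subalgebra k F} {X Y : F} (hX : X ∈ B) (hY : Y ∈ B) {a : F}
    {P : k[X][X][X]} (hP : P.Monic) (ha : evf k X Y a P = 0) : IsIntegral B a := by
  let g : k[X][X] →+* B := eval₂RingHom (aeval (⟨X, hX⟩ : B) : k[X] →ₐ[k] B).toRingHom ⟨Y, hY⟩
  have hg : (algebraMap B F).comp g = ev2 k X Y := by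
    refine Polynomial.ringHom_ext' ?_ ?_
    · refine Polynomial.ringHom_ext' ?_ ?_
      · ext c
        simp [g, ev2]
      · simp [g, ev2]
    · simp [g, ev2]
  refine ⟨P.map g, hP.map g, ?_⟩
  rw [eval₂_map, hg]
  exact ha

/-- The chart is integral over the polynomials in the coordinates. -/
theorem integral_of_family {d : ℕ} {x0 x1 y : F}
    (h0 : x0 ∈ Submodule.span k (Set.range x)) (hx0 : x0 ≠ 0)
    {ι : Type} [Fintype ι] {E : ι → F} {m : ι → ℕ}
    (hE : ∀ i, ∃ e ∈ hom k x (m i), E i = e / x0 ^ m i) (hne : ∃ i, E i ≠ 0)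
    (hfam : ∀ (p : ℕ) (h : F), h ∈ hom k x p → ∃ a : ι → k[X][X], (∀ j, Wb d (a j) p (m j)) ∧
        h / x0 ^ p = ∑ j, ev2 k (x1 / x0) (y / x0 ^ d) (a j) * E j)
    {a : F} (ha : a ∈ chartOf k x x0) :
    ∃ P : k[X][X][X], P.Monic ∧ evf k (x1 / x0) (y / x0 ^ d) a P = 0 := by
  classical
  obtain ⟨p, s, hs, rfl⟩ := (mem_chartOf_iff h0 hx0).1 ha
  have h1 : ∀ i, ∃ b : ι → k[X][X], s / x0 ^ p * E i =
      ∑ j, ev2 k (x1 / x0) (y / x0 ^ d) (b j) * E j := by
    intro i
    obtain ⟨e, he, hei⟩ := hE i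
    obtain ⟨b, -, hb⟩ := hfam (p + m i) (s * e) (hom_mul_mem hs he)
    refine ⟨b, ?_⟩
    rw [← hb, hei, pow_add, div_mul_div_comm]
  choose b hb using h1
  exact ⟨(Matrix.of b).charpoly, Matrix.charpoly_monic _,
    gen_charpoly (ev2 k (x1 / x0) (y / x0 ^ d)) _ E hne b hb⟩

/-- The coordinates `X, Y` are algebraically independent. -/
theorem ev2_injective {A : Subalgebra k F} (hA : ChartN A) {X Y : F} (hX : X ∈ A) (hY : Y ∈ A)
    (hint : ∀ a ∈ A, IsIntegral (Algebra.adjoin k {X, Y}) a) (p : k[X][X])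
    (hp : ev2 k X Y p = 0) : p = 0 := by
  by_contra hp0
  set B := Algebra.adjoin k {X, Y} with hB
  have hle : B ≤ A := by
    rw [hB, Algebra.adjoin_le_iff]
    rintro a (rfl | rfl)
    · exact hX
    · exact hY
  have hXB : X ∈ B := Algebra.subset_adjoin (Or.inl rfl)
  have hYB : Y ∈ B := Algebra.subset_adjoin (Or.inr rfl)
  let g : k[X][X] →+* B := eval₂RingHom (aeval (⟨X, hXB⟩ : B) : k[X] →ₐ[k] B).toRingHom ⟨Y, hYB⟩
  have hg : (algebraMap B F).comp g = ev2 k X Y := by
    refine Polynomial.ringHom_ext' ?_ ?_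
    · refine Polynomial.ringHom_ext' ?_ ?_
      · ext c
        simp [g, ev2]
      · simp [g, ev2]
    · simp [g, ev2]
  have hgs : Function.Surjective g := by
    rintro ⟨b, hb⟩
    have h1 : b ∈ (ev2 k X Y).range := by
      have h2 : ∀ c : k, algebraMap k F c ∈ (ev2 k X Y).range := fun c =>
        ⟨C (C c), ev2_const X Y c⟩
      have h3 : b ∈ Algebra.adjoin k {X, Y} := hb
      clear hb
      induction h3 using Algebra.adjoin_induction with
      | mem y hy =>
        rcases hy with rfl | rfl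
        · exact ⟨C Polynomial.X, ev2_CX _ _⟩
        · exact ⟨Polynomial.X, ev2_X _ _⟩
      | algebraMap c => exact h2 c
      | add y z _ _ h4 h5 => exact add_mem h4 h5
      | mul y z _ _ h4 h5 => exact mul_mem h4 h5
    obtain ⟨q, hq⟩ := h1
    refine ⟨q, ?_⟩
    apply Subtype.ext
    show ((algebraMap B F).comp g) q = b
    rw [hg]
    exact hq
  have hgp : g p = 0 := by
    apply Subtype.ext
    have h1 : ((algebraMap B F).comp g) p = 0 := by
      rw [hg]
      exact hp
    exact h1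
  have h1 : ringKrullDim B ≤ ringKrullDim (k[X][X] ⧸ Ideal.span {p}) := by
    refine ringKrullDim_le_of_surjective (Ideal.Quotient.lift (Ideal.span {p}) g ?_) ?_
    · intro a ha
      obtain ⟨c, rfl⟩ := Ideal.mem_span_singleton'.1 ha
      rw [map_mul, hgp, mul_zero]
    · exact Ideal.Quotient.lift_surjective_of_surjective _ _ hgs
  have h2 := ringKrullDim_quotient_succ_le_of_nonZeroDivisor (mem_nonZeroDivisors_of_ne_zero hp0)
  have h3 : ringKrullDim k[X][X] = 2 := by
    rw [Polynomial.ringKrullDim_of_isNoetherianRing, Polynomial.ringKrullDim_of_isNoetherianRing,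
      ringKrullDim_eq_zero_of_field]
    norm_num
  rw [h3] at h2
  obtain ⟨n, hn⟩ := Ideal.exists_maximal B
  have h4 := two_le_heightN hA hle hint n
  have h5 : ((n.height : ℕ∞) : WithBot ℕ∞) ≤ ringKrullDim B := Ideal.height_le_ringKrullDim_of_ne_top hn.ne_top
  have h6 : (2 : WithBot ℕ∞) ≤ ringKrullDim B := by
    refine le_trans ?_ h5
    exact WithBot.coe_le_coe.2 h4
  have h7 : (2 : WithBot ℕ∞) + 1 ≤ 2 := (add_le_add_left (h6.trans h1) 1).trans h2
  exact absurd h7 (by decide)

/-- **The equation of the surface** in the coordinates `X = x1 / x0`, `Y = y / x0 ^ d`,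
`Z = z / x0 ^ d`. -/
theorem exists_wt (hx : ∀ i, x i ≠ 0) {d : ℕ} (hd : 1 ≤ d) {x0 x1 y z : F}
    (h0 : x0 ∈ Submodule.span k (Set.range x)) (h1 : x1 ∈ Submodule.span k (Set.range x))
    (hx0 : x0 ≠ 0) (hy : y ∈ hom k x d) (hzd : z ∈ hom k x d) (hz : NoZ k x d x0 x1 y)
    (hA : ChartN (chartOf k x x0)) :
    ∃ f : k[X][X][X], f.Monic ∧ 1 ≤ f.natDegree ∧ Irreducible f ∧
      (∀ i j, (f.coeff j).coeff i ≠ 0 →
        ((f.coeff j).coeff i).natDegree + d * (i + j) ≤ d * f.natDegree) ∧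
      (∀ p : k[X][X][X], evf k (x1 / x0) (y / x0 ^ d) (z / x0 ^ d) p = 0 ↔ f ∣ p) ∧
      (∀ p : k[X][X], ev2 k (x1 / x0) (y / x0 ^ d) p = 0 → p = 0) ∧
      ∀ a ∈ chartOf k x x0, IsIntegral (Algebra.adjoin k {x1 / x0, y / x0 ^ d}) a := by
  classical
  obtain ⟨ι, hι, E, m, hE, hne, hfam⟩ := exists_family hx hd h0 h1 hx0 hy hz
  have hint : ∀ a ∈ chartOf k x x0, IsIntegral (Algebra.adjoin k {x1 / x0, y / x0 ^ d}) a := by
    intro a ha
    obtain ⟨P, hP, hPa⟩ := integral_of_family h0 hx0 hE hne hfam ha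
    refine isIntegral_of_eval₂ (B := Algebra.adjoin k {x1 / x0, y / x0 ^ d}) ?_ ?_ hP hPa
    · exact Algebra.subset_adjoin (Or.inl rfl)
    · exact Algebra.subset_adjoin (Or.inr rfl)
  have hX : x1 / x0 ∈ chartOf k x x0 := by
    have := div_mem_chartOf (w := x0) (mem_hom_one.2 h1)
    rwa [pow_one] at this
  have hinj := fun p hp => ev2_injective hA hX (div_mem_chartOf hy) hint p hp
  have h2 : ∀ i, ∃ b : ι → k[X][X], (∀ j, Wb d (b j) (d + m i) (m j)) ∧
      z / x0 ^ d * E i = ∑ j, ev2 k (x1 / x0) (y / x0 ^ d) (b j) * E j := by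
    intro i
    obtain ⟨e, he, hei⟩ := hE i
    obtain ⟨b, hb1, hb⟩ := hfam (d + m i) (z * e) (hom_mul_mem hzd he)
    refine ⟨b, hb1, ?_⟩
    rw [← hb, hei, pow_add, div_mul_div_comm]
  choose b hb1 hb2 using h2
  obtain ⟨P, hP, hPZ, hPd⟩ := exists_charpoly E hne m b hb1 hb2
  obtain ⟨f, hf1, hf2, hf3, hf4⟩ := exists_minimal hinj P hP hPZ hPd
  refine ⟨f, hf1, ?_, hf2, hf3, hf4, hinj, hint⟩
  by_contra h3
  have h4 : f.natDegree = 0 := by omega
  have h5 := hf1.natDegree_eq_zero.1 h4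
  exact hf2.not_isUnit (by rw [h5]; exact isUnit_one)

end Pool.Agent.Lib.MP_b197b4_ntK.Q
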