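import Mathlib
import Pool.Agent.Lib.MP_b197b4_ntQ.WtC
import Pool.Agent.Lib.MP_b197b4_ntC.CDefs

/-!
# MP_b197b4_nt, project K1, pencils: the algebra `k[X, Y, Z]` modulo `Z - κ Y`
-/

set_option autoImplicit false

namespace Pool.Agent.Lib.MP_b197b4_ntK.Q

open Polynomial

theorem hom_sub' {R S : Type} [CommRing R] [CommRing S] (g : R[X] →+* S) (p q : R[X]) :
    g (p - q) = g p - g q := map_sub g p q

section Theta

variable {k : Type} [Field k]

/-- `p(x, y, z) ↦ p(x, y, κ y)`. -/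
noncomputable def theta (κ : k) : k[X][X][X] →+* k[X][X] := evalRingHom (C (C κ) * X)

theorem theta_C (κ : k) (q : k[X][X]) : theta κ (C q) = q := by
  simp [theta]

theorem theta_X (κ : k) : theta κ X = C (C κ) * X := by
  simp [theta]

theorem theta_sub (κ : k) (p q : k[X][X][X]) : theta κ (p - q) = theta κ p - theta κ q :=
  hom_sub' (theta κ) p q

theorem theta_eq_fib (κ : k) (f : k[X][X][X]) : theta κ f = MPb197b4P.fib f κ 0 := by
  simp [theta, MPb197b4P.fib]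

end Theta

variable {k : Type} {F : Type} [Field k] [Field F] [Algebra k F] {X Y Z : F}

theorem evf_sub (X Y Z : F) (p q : k[X][X][X]) :
    evf k X Y Z (p - q) = evf k X Y Z p - evf k X Y Z q :=
  hom_sub' (evf k X Y Z) p q

theorem evf_CCX (X Y Z : F) : evf k X Y Z (C (C Polynomial.X)) = X := by
  rw [evf_C, ev2_CX]

theorem evf_CX (X Y Z : F) : evf k X Y Z (C Polynomial.X) = Y := by
  rw [evf_C, ev2_X]

theorem evf_const (X Y Z : F) (c : k) : evf k X Y Z (C (C (C c))) = algebraMap k F c := by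
  rw [evf_C, ev2_const]

/-- the algebra generated by the coordinates -/
theorem exists_evf {a : F} (ha : a ∈ Algebra.adjoin k {X, Y, Z}) :
    ∃ p : k[X][X][X], evf k X Y Z p = a := by
  induction ha using Algebra.adjoin_induction with
  | mem y hy =>
    rcases hy with rfl | rfl | rfl
    · exact ⟨_, evf_CCX _ _ _⟩
    · exact ⟨_, evf_CX _ _ _⟩
    · exact ⟨_, evf_X _ _ _⟩
  | algebraMap c => exact ⟨_, evf_const _ _ _ c⟩
  | add y z _ _ h4 h5 =>
    obtain ⟨p, rfl⟩ := h4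
    obtain ⟨q, rfl⟩ := h5
    exact ⟨p + q, map_add _ _ _⟩
  | mul y z _ _ h4 h5 =>
    obtain ⟨p, rfl⟩ := h4
    obtain ⟨q, rfl⟩ := h5
    exact ⟨p * q, map_mul _ _ _⟩

theorem ev2_mem {B : Subalgebra k F} (hX : X ∈ B) (hY : Y ∈ B) (p : k[X][X]) :
    ev2 k X Y p ∈ B := by
  induction p using Polynomial.induction_on' with
  | add p q hp hq =>
    rw [map_add]
    exact add_mem hp hq
  | monomial i a =>
    rw [← C_mul_X_pow_eq_monomial, map_mul, map_pow, ev2_X, ev2_C]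
    refine mul_mem ?_ (pow_mem hY i)
    exact (Algebra.adjoin_le (by simpa using hX) : Algebra.adjoin k {X} ≤ B)
      (aeval_mem_adjoin_singleton k X)

theorem evf_mem {B : Subalgebra k F} (hX : X ∈ B) (hY : Y ∈ B) (hZ : Z ∈ B) (p : k[X][X][X]) :
    evf k X Y Z p ∈ B := by
  induction p using Polynomial.induction_on' with
  | add p q hp hq =>
    rw [map_add]
    exact add_mem hp hq
  | monomial i a =>
    rw [← C_mul_X_pow_eq_monomial, map_mul, map_pow, evf_X, evf_C]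
    exact mul_mem (ev2_mem hX hY a) (pow_mem hZ i)

/-- `p(X, Y, Z)` is `p(X, Y, κ Y)` modulo `Z - κ Y`. -/
theorem evf_theta (κ : k) (p : k[X][X][X]) :
    ∃ c : k[X][X][X], evf k X Y Z p =
      ev2 k X Y (theta κ p) + evf k X Y Z c * (Z - algebraMap k F κ * Y) := by
  obtain ⟨c, hc⟩ := X_sub_C_dvd_sub_C_eval (p := p) (a := C (C κ) * Polynomial.X)
  refine ⟨c, ?_⟩
  have h1 := congrArg (evf k X Y Z) hc
  rw [evf_sub, map_mul, evf_sub, evf_X, evf_C, evf_C, map_mul, ev2_const, ev2_X] at h1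
  have h2 : theta κ p = eval (C (C κ) * Polynomial.X) p := rfl
  rw [h2]
  linear_combination h1

/-- **The ideal of `Z - κ Y`.** -/
theorem mem_span_iff {f : k[X][X][X]} (hker : ∀ p : k[X][X][X], evf k X Y Z p = 0 ↔ f ∣ p)
    (κ : k) (p : k[X][X][X]) :
    (∃ c : k[X][X][X], evf k X Y Z p = evf k X Y Z c * (Z - algebraMap k F κ * Y)) ↔
      theta κ f ∣ theta κ p := by
  have hw : evf k X Y Z (Polynomial.X - C (C (C κ) * Polynomial.X)) =
      Z - algebraMap k F κ * Y := by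
    rw [evf_sub, evf_X, evf_C, map_mul, ev2_const, ev2_X]
  constructor
  · rintro ⟨c, hc⟩
    have h1 : evf k X Y Z (p - c * (Polynomial.X - C (C (C κ) * Polynomial.X))) = 0 := by
      rw [evf_sub, map_mul, hw, hc, sub_self]
    obtain ⟨e, he⟩ := (hker _).1 h1
    have h2 : theta κ (p - c * (Polynomial.X - C (C (C κ) * Polynomial.X))) = theta κ p := by
      rw [theta_sub, map_mul, theta_sub, theta_X, theta_C, sub_self, mul_zero, sub_zero]
    rw [← h2, he, map_mul]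
    exact dvd_mul_right _ _
  · rintro ⟨e, he⟩
    obtain ⟨c1, h1⟩ := evf_theta (X := X) (Y := Y) (Z := Z) κ p
    obtain ⟨c2, h2⟩ := evf_theta (X := X) (Y := Y) (Z := Z) κ f
    have h3 : evf k X Y Z f = 0 := (hker f).2 dvd_rfl
    refine ⟨c1 - c2 * C e, ?_⟩
    rw [h1, he, map_mul, evf_sub, map_mul, evf_C]
    rw [h3] at h2
    linear_combination (-ev2 k X Y e) * h2

section Alg

variable {f : k[X][X][X]}

/-- the algebra of the coordinates -/
def alg3 (k : Type) {F : Type} [Field k] [Field F] [Algebra k F] (X Y Z : F) : Subalgebra k F :=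
  Algebra.adjoin k {X, Y, Z}

theorem X_mem3 : X ∈ alg3 k X Y Z := Algebra.subset_adjoin (Or.inl rfl)
theorem Y_mem3 : Y ∈ alg3 k X Y Z := Algebra.subset_adjoin (Or.inr (Or.inl rfl))
theorem Z_mem3 : Z ∈ alg3 k X Y Z := Algebra.subset_adjoin (Or.inr (Or.inr rfl))

theorem evf_mem3 (p : k[X][X][X]) : evf k X Y Z p ∈ alg3 k X Y Z :=
  evf_mem X_mem3 Y_mem3 Z_mem3 p

/-- the element `Z - κ Y` -/
def lin3 (κ : k) (X Y Z : F) : alg3 k X Y Z :=
  ⟨Z - algebraMap k F κ * Y, sub_mem Z_mem3 (mul_mem (Subalgebra.algebraMap_mem _ κ) Y_mem3)⟩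

theorem mem_span_lin3 (hker : ∀ p : k[X][X][X], evf k X Y Z p = 0 ↔ f ∣ p) (κ : k)
    (p : k[X][X][X]) : (⟨evf k X Y Z p, evf_mem3 p⟩ : alg3 k X Y Z) ∈ Ideal.span {lin3 κ X Y Z} ↔
      theta κ f ∣ theta κ p := by
  rw [← mem_span_iff hker κ p, Ideal.mem_span_singleton']
  constructor
  · rintro ⟨⟨a, ha⟩, h⟩
    obtain ⟨c, rfl⟩ := exists_evf ha
    exact ⟨c, (congrArg Subtype.val h).symm⟩
  · rintro ⟨c, hc⟩
    exact ⟨⟨_, evf_mem3 c⟩, Subtype.ext hc.symm⟩

theorem lin3_ne_zero (hker : ∀ p : k[X][X][X], evf k X Y Z p = 0 ↔ f ∣ p)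
    (hinj : ∀ p : k[X][X], ev2 k X Y p = 0 → p = 0) {κ : k} (hirr : Irreducible (theta κ f)) :
    lin3 κ X Y Z ≠ 0 := by
  intro h
  have h1 : Z - algebraMap k F κ * Y = 0 := congrArg Subtype.val h
  obtain ⟨c, hc⟩ := evf_theta (X := X) (Y := Y) (Z := Z) κ f
  rw [(hker f).2 dvd_rfl, h1, mul_zero, add_zero] at hc
  exact hirr.ne_zero (hinj _ hc.symm)

/-- `Z - κ Y` generates a prime ideal. -/
theorem isPrime_lin3 (hker : ∀ p : k[X][X][X], evf k X Y Z p = 0 ↔ f ∣ p) {κ : k}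
    (hirr : Irreducible (theta κ f)) : (Ideal.span {lin3 κ X Y Z}).IsPrime := by
  refine ⟨?_, ?_⟩
  · rw [Ideal.ne_top_iff_one]
    intro h
    have h1 : (⟨evf k X Y Z 1, evf_mem3 1⟩ : alg3 k X Y Z) ∈ Ideal.span {lin3 κ X Y Z} := by
      have h2 : (⟨evf k X Y Z 1, evf_mem3 1⟩ : alg3 k X Y Z) = 1 := Subtype.ext (map_one _)
      rw [h2]
      exact h
    rw [mem_span_lin3 hker, map_one] at h1
    exact hirr.not_isUnit (isUnit_of_dvd_one h1)
  · rintro ⟨a, ha⟩ ⟨b, hb⟩ hab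
    obtain ⟨p, rfl⟩ := exists_evf ha
    obtain ⟨q, rfl⟩ := exists_evf hb
    have h1 : (⟨evf k X Y Z (p * q), evf_mem3 _⟩ : alg3 k X Y Z) ∈
        Ideal.span {lin3 κ X Y Z} := by
      have h2 : (⟨evf k X Y Z (p * q), evf_mem3 _⟩ : alg3 k X Y Z) =
          ⟨evf k X Y Z p, ha⟩ * ⟨evf k X Y Z q, hb⟩ := Subtype.ext (map_mul _ _ _)
      rw [h2]
      exact hab
    rw [mem_span_lin3 hker, map_mul] at h1
    rcases hirr.prime.dvd_or_dvd h1 with h | h
    · left
      exact (mem_span_lin3 hker κ p).2 h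
    · right
      exact (mem_span_lin3 hker κ q).2 h

/-- The prime ideals above `Z - κ Y` are maximal. -/
theorem max_lin3 (hker : ∀ p : k[X][X][X], evf k X Y Z p = 0 ↔ f ∣ p) {κ : k}
    (hirr : Irreducible (theta κ f)) (P : Ideal (alg3 k X Y Z)) (hP : P.IsPrime)
    (hlt : Ideal.span {lin3 κ X Y Z} < P) : P.IsMaximal := by
  let g : k[X][X] →+* alg3 k X Y Z :=
    (ev2 k X Y).codRestrict (alg3 k X Y Z) (ev2_mem X_mem3 Y_mem3)
  have hg : ∀ q, (g q : F) = ev2 k X Y q := fun q => rfl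
  -- every element is an element of the image of `g` modulo `Z - κ Y`
  have hsur : ∀ p : k[X][X][X], ∃ c : alg3 k X Y Z,
      (⟨evf k X Y Z p, evf_mem3 p⟩ : alg3 k X Y Z) = g (theta κ p) + c * lin3 κ X Y Z := by
    intro p
    obtain ⟨c, hc⟩ := evf_theta (X := X) (Y := Y) (Z := Z) κ p
    exact ⟨⟨_, evf_mem3 c⟩, Subtype.ext hc⟩
  have hlin : lin3 κ X Y Z ∈ P := hlt.le (Ideal.mem_span_singleton_self _)
  let J : Ideal k[X][X] := P.comap g
  haveI hJ : J.IsPrime := Ideal.comap_isPrime g P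
  have hJmem : ∀ p : k[X][X][X], (⟨evf k X Y Z p, evf_mem3 p⟩ : alg3 k X Y Z) ∈ P ↔
      theta κ p ∈ J := by
    intro p
    obtain ⟨c, hc⟩ := hsur p
    rw [hc]
    exact (Ideal.add_mem_iff_left P (P.mul_mem_left c hlin))
  have hfJ : theta κ f ∈ J := by
    rw [← hJmem]
    have h1 : (⟨evf k X Y Z f, evf_mem3 f⟩ : alg3 k X Y Z) = 0 :=
      Subtype.ext ((hker f).2 dvd_rfl)
    rw [h1]
    exact P.zero_mem
  haveI hq : (Ideal.span {theta κ f}).IsPrime :=
    (Ideal.span_singleton_prime hirr.ne_zero).2 hirr.prime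
  have hJlt : Ideal.span {theta κ f} < J := by
    refine lt_of_le_of_ne ((Ideal.span_singleton_le_iff_mem _).2 hfJ) ?_
    intro heq
    apply hlt.not_ge
    rintro ⟨a, ha⟩ haP
    obtain ⟨p, rfl⟩ := exists_evf ha
    rw [hJmem p, ← heq, Ideal.mem_span_singleton] at haP
    exact (mem_span_lin3 hker κ p).2 haP
  have hdim : ringKrullDim k[X][X] = 2 := by
    rw [Polynomial.ringKrullDim_of_isNoetherianRing, Polynomial.ringKrullDim_of_isNoetherianRing,
      ringKrullDim_eq_zero_of_field]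
    norm_num
  have hbot : (⊥ : Ideal k[X][X]) < Ideal.span {theta κ f} := by
    rw [bot_lt_iff_ne_bot, Ne, Ideal.span_singleton_eq_bot]
    exact hirr.ne_zero
  have hJmax : J.IsMaximal := by
    by_contra hmax
    obtain ⟨M, hM, hJM⟩ := Ideal.exists_le_maximal J hJ.ne_top
    have hJM' : J < M := lt_of_le_of_ne hJM fun h => hmax (h ▸ hM)
    haveI := hM.isPrime
    haveI : (⊥ : Ideal k[X][X]).IsPrime := Ideal.isPrime_bot
    have h1 := Ideal.height_strict_mono_of_isPrime hbot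
    have h2 := Ideal.height_strict_mono_of_isPrime hJlt
    have h3 := Ideal.height_strict_mono_of_isPrime hJM'
    have h4 : ((M.height : ℕ∞) : WithBot ℕ∞) ≤ ((2 : ℕ∞) : WithBot ℕ∞) := by
      have h41 : ((2 : ℕ∞) : WithBot ℕ∞) = 2 := rfl
      rw [h41, ← hdim]
      exact Ideal.height_le_ringKrullDim_of_ne_top hM.ne_top
    have h5 : M.height ≤ 2 := WithBot.coe_le_coe.1 h4
    have h6 : (3 : ℕ∞) ≤ M.height := by
      have a1 : (1 : ℕ∞) ≤ (Ideal.span {theta κ f}).height := Order.one_le_iff_pos.2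
        (lt_of_le_of_lt bot_le h1)
      have a2 : (1 : ℕ∞) + 1 ≤ J.height := by
        refine le_trans (add_le_add_left a1 1) ?_
        exact Order.add_one_le_of_lt h2
      have a3 : (1 : ℕ∞) + 1 + 1 ≤ M.height := by
        refine le_trans (add_le_add_left a2 1) ?_
        exact Order.add_one_le_of_lt h3
      have a4 : (1 : ℕ∞) + 1 + 1 = 3 := by norm_num
      rwa [a4] at a3
    exact absurd (h6.trans h5) (by decide)
  -- the quotient is a field
  rw [Ideal.isMaximal_iff]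
  refine ⟨(Ideal.ne_top_iff_one P).1 hP.ne_top, ?_⟩
  rintro I ⟨a, ha⟩ hPI haP haI
  obtain ⟨p, rfl⟩ := exists_evf ha
  rw [hJmem p] at haP
  obtain ⟨c, hc⟩ := hsur p
  have h1 : g (theta κ p) ∈ I := by
    have h2 : g (theta κ p) = ⟨evf k X Y Z p, ha⟩ - c * lin3 κ X Y Z := by
      rw [eq_sub_iff_add_eq]
      exact hc.symm
    rw [h2]
    exact sub_mem haI (hPI (P.mul_mem_left c hlin))
  obtain ⟨y, i, hi, hy⟩ := hJmax.exists_inv haP
  have h3 : g y * g (theta κ p) + g i = 1 := by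
    rw [← map_mul, ← map_add, hy, map_one]
  rw [← h3]
  exact add_mem (I.mul_mem_left _ h1) (hPI hi)

end Alg

end Pool.Agent.Lib.MP_b197b4_ntK.Q
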