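import Mathlib
import Pool.Agent.Lib.MP_b197b4_ntQ.PenA

/-!
# MP_b197b4_nt, project K1, pencils: the simple root
-/

set_option autoImplicit false

namespace Pool.Agent.Lib.MP_b197b4_ntK.Q

open Polynomial

variable {k : Type} {F : Type} [Field k] [Field F] [Algebra k F] {X Y Z : F}

theorem evf_add_X_mul (X Y Z : F) (p : k[X][X][X]) : ∃ q : k[X][X][X],
    evf k X Y Z p = ev2 k X Y (p.eval 0) + evf k X Y Z q * Z := by
  obtain ⟨c, hc⟩ := X_sub_C_dvd_sub_C_eval (p := p) (a := 0)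
  refine ⟨c, ?_⟩
  have h1 := congrArg (evf k X Y Z) hc
  rw [evf_sub, map_mul, evf_sub, evf_X, evf_C, evf_C, map_zero, sub_zero] at h1
  linear_combination h1

theorem ev2_sub (X Y : F) (p q : k[X][X]) :
    ev2 k X Y (p - q) = ev2 k X Y p - ev2 k X Y q :=
  hom_sub' (ev2 k X Y) p q

theorem ev2_add_X_mul (X Y : F) (p : k[X][X]) : ∃ q : k[X][X],
    ev2 k X Y p = aeval X (p.eval 0) + ev2 k X Y q * Y := by
  obtain ⟨c, hc⟩ := X_sub_C_dvd_sub_C_eval (p := p) (a := 0)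
  refine ⟨c, ?_⟩
  have h1 := congrArg (ev2 k X Y) hc
  rw [ev2_sub, map_mul, ev2_sub, ev2_X, ev2_C, ev2_C, map_zero, sub_zero] at h1
  linear_combination h1

theorem aeval_add_mul (X : F) (a₀ : k) (p : k[X]) : ∃ q : k[X],
    aeval X p = algebraMap k F (p.eval a₀) + aeval X q * (X - algebraMap k F a₀) := by
  obtain ⟨c, hc⟩ := X_sub_C_dvd_sub_C_eval (p := p) (a := a₀)
  refine ⟨c, ?_⟩
  have h1 := congrArg (aeval X) hc
  rw [map_sub, map_mul, map_sub, aeval_X, aeval_C, aeval_C] at h1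
  linear_combination h1

theorem aeval_mem3 (p : k[X]) : aeval X p ∈ alg3 k X Y Z :=
  (Algebra.adjoin_le (by simpa using X_mem3) : Algebra.adjoin k {X} ≤ alg3 k X Y Z)
    (aeval_mem_adjoin_singleton k X)

/-- the element `X - a₀` -/
def lin1 (a₀ : k) (X Y Z : F) : alg3 k X Y Z :=
  ⟨X - algebraMap k F a₀, sub_mem X_mem3 (Subalgebra.algebraMap_mem _ a₀)⟩

/-- The value of a polynomial at the point `P`. -/
theorem value_iff (P : Ideal (alg3 k X Y Z)) (hP : P.IsPrime) (a₀ : k)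
    (hX : lin1 a₀ X Y Z ∈ P) (hY : (⟨Y, Y_mem3⟩ : alg3 k X Y Z) ∈ P)
    (hZ : (⟨Z, Z_mem3⟩ : alg3 k X Y Z) ∈ P) (p : k[X][X][X]) :
    (⟨evf k X Y Z p, evf_mem3 p⟩ : alg3 k X Y Z) ∈ P ↔ ((p.eval 0).eval 0).eval a₀ = 0 := by
  obtain ⟨q1, h1⟩ := evf_add_X_mul X Y Z p
  obtain ⟨q2, h2⟩ := ev2_add_X_mul X Y (p.eval 0)
  obtain ⟨q3, h3⟩ := aeval_add_mul X a₀ ((p.eval 0).eval 0)
  have h4 : (⟨evf k X Y Z p, evf_mem3 p⟩ : alg3 k X Y Z) =
      algebraMap k _ (((p.eval 0).eval 0).eval a₀) +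
      ((⟨aeval X q3, aeval_mem3 q3⟩ : alg3 k X Y Z) * lin1 a₀ X Y Z +
        (⟨ev2 k X Y q2, ev2_mem X_mem3 Y_mem3 q2⟩ : alg3 k X Y Z) * ⟨Y, Y_mem3⟩ +
        (⟨evf k X Y Z q1, evf_mem3 q1⟩ : alg3 k X Y Z) * ⟨Z, Z_mem3⟩) := by
    apply Subtype.ext
    change evf k X Y Z p = algebraMap k F (((p.eval 0).eval 0).eval a₀) +
      (aeval X q3 * (X - algebraMap k F a₀) + ev2 k X Y q2 * Y + evf k X Y Z q1 * Z)
    rw [h1, h2, h3]
    ring
  have h5 : ((⟨aeval X q3, aeval_mem3 q3⟩ : alg3 k X Y Z) * lin1 a₀ X Y Z +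
        (⟨ev2 k X Y q2, ev2_mem X_mem3 Y_mem3 q2⟩ : alg3 k X Y Z) * ⟨Y, Y_mem3⟩ +
        (⟨evf k X Y Z q1, evf_mem3 q1⟩ : alg3 k X Y Z) * ⟨Z, Z_mem3⟩) ∈ P :=
    add_mem (add_mem (P.mul_mem_left _ hX) (P.mul_mem_left _ hY)) (P.mul_mem_left _ hZ)
  rw [h4, Ideal.add_mem_iff_left P h5]
  constructor
  · intro h
    by_contra hne
    apply hP.ne_top
    rw [Ideal.eq_top_iff_one]
    have h6 := P.mul_mem_left (algebraMap k _ (((p.eval 0).eval 0).eval a₀)⁻¹) h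
    rwa [← map_mul, inv_mul_cancel₀ hne, map_one] at h6
  · intro h
    rw [h, map_zero]
    exact P.zero_mem

/-- **The simple root.** -/
theorem simple_root {f : k[X][X][X]} (hker : ∀ p : k[X][X][X], evf k X Y Z p = 0 ↔ f ∣ p)
    (P : Ideal (alg3 k X Y Z)) (hP : P.IsPrime) (a₀ : k)
    (hX : lin1 a₀ X Y Z ∈ P) (hY : (⟨Y, Y_mem3⟩ : alg3 k X Y Z) ∈ P)
    (hZ : (⟨Z, Z_mem3⟩ : alg3 k X Y Z) ∈ P)
    (h : ∃ t u v : alg3 k X Y Z, t ∉ P ∧ (t : F) * (X - algebraMap k F a₀) = u * Y + v * Z) :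
    ((f.eval 0).eval 0).rootMultiplicity a₀ = 1 := by
  obtain ⟨⟨t, ht⟩, ⟨u, hu⟩, ⟨v, hv⟩, htP, htuv⟩ := h
  obtain ⟨T, rfl⟩ := exists_evf ht
  obtain ⟨U, rfl⟩ := exists_evf hu
  obtain ⟨W, rfl⟩ := exists_evf hv
  have hT : ((T.eval 0).eval 0).eval a₀ ≠ 0 := fun h => htP ((value_iff P hP a₀ hX hY hZ T).2 h)
  have hf : ((f.eval 0).eval 0).eval a₀ = 0 := by
    rw [← value_iff P hP a₀ hX hY hZ f]
    have h1 : (⟨evf k X Y Z f, evf_mem3 f⟩ : alg3 k X Y Z) = 0 :=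
      Subtype.ext ((hker f).2 dvd_rfl)
    rw [h1]
    exact P.zero_mem
  have h1 : evf k X Y Z (T * (C (C Polynomial.X) - C (C (C a₀))) -
      (U * C Polynomial.X + W * Polynomial.X)) = 0 := by
    rw [evf_sub, map_mul, evf_sub, map_add, map_mul, map_mul, evf_CCX, evf_const, evf_CX, evf_X,
      sub_eq_zero]
    exact htuv
  obtain ⟨e, he⟩ := (hker _).1 h1
  have h2 := congrArg (fun p : k[X][X][X] => (p.eval 0).eval 0) he
  simp only [eval_sub, eval_mul, eval_add, eval_C, eval_X, mul_zero, add_zero, sub_zero] at h2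
  have h3 : (Polynomial.X - C a₀ : k[X]) ≠ 0 := X_sub_C_ne_zero a₀
  have hT0 : (T.eval 0).eval 0 ≠ 0 := by
    intro h
    rw [h, eval_zero] at hT
    exact hT rfl
  have h4 : (T.eval 0).eval 0 * (Polynomial.X - C a₀) ≠ 0 := mul_ne_zero hT0 h3
  have h5 : (f.eval 0).eval 0 * (e.eval 0).eval 0 ≠ 0 := h2 ▸ h4
  have hf0 := left_ne_zero_of_mul h5
  have h6 := rootMultiplicity_mul (x := a₀) h5
  have h7 := rootMultiplicity_mul (x := a₀) h4
  rw [← h2, h7, rootMultiplicity_X_sub_C_self, rootMultiplicity_eq_zero hT] at h6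
  have h8 : 0 < ((f.eval 0).eval 0).rootMultiplicity a₀ := (rootMultiplicity_pos hf0).2 hf
  omega

/-- The pencils of the polynomial `f`, including the case of degree one. -/
theorem finite_fib {f : k[X][X][X]} {d : ℕ} (hB : MPb197b4P.Bert k) (hd : 1 ≤ d) (hf : f.Monic)
    (hf1 : 1 ≤ f.natDegree) (hirr : Irreducible f)
    (hwt : ∀ i j, (f.coeff j).coeff i ≠ 0 →
        ((f.coeff j).coeff i).natDegree + d * (i + j) ≤ d * f.natDegree)
    (a₀ : k) (ha : ((f.eval 0).eval 0).rootMultiplicity a₀ = 1) :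
    {κ : k | ¬ Irreducible (theta κ f)}.Finite := by
  rcases Nat.lt_or_ge f.natDegree 2 with h2 | h2
  · have hr : f.natDegree = 1 := by omega
    -- `f = z - (α + γ y)`
    have hc1 : f.coeff 1 = 1 := by
      rw [← hr]
      exact hf
    have hq : ∀ i, 2 ≤ i → (f.coeff 0).coeff i = 0 := by
      intro i hi
      by_contra hne
      have := hwt i 0 hne
      rw [hr] at this
      nlinarith
    have hγ : ((f.coeff 0).coeff 1).natDegree = 0 := by
      by_cases h0 : (f.coeff 0).coeff 1 = 0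
      · rw [h0, natDegree_zero]
      · have := hwt 1 0 h0
        rw [hr] at this
        omega
    obtain ⟨γ, hγ'⟩ := natDegree_eq_zero.1 hγ
    have hf' : f = Polynomial.X + C (f.coeff 0) := by
      rw [eq_X_add_C_of_natDegree_le_one hr.le, hc1, C_1, one_mul, coeff_add, coeff_X_zero,
        coeff_C_zero, zero_add]
    have hq' : f.coeff 0 = C ((f.coeff 0).coeff 0) + C (C γ) * Polynomial.X := by
      ext i : 1
      rcases i with _ | _ | i
      · simp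
      · simp [← hγ']
      · rw [hq _ (by omega)]
        simp [coeff_C, coeff_X]
    refine (Set.finite_singleton (-γ)).subset ?_
    intro κ hκ
    rw [Set.mem_singleton_iff]
    by_contra hne
    apply hκ
    have h3 : theta κ f = C (C (κ + γ)) * Polynomial.X + C ((f.coeff 0).coeff 0) := by
      rw [hf', map_add, theta_X, theta_C, ← hf', hq']
      simp only [coeff_add, coeff_C_zero, coeff_C_mul, coeff_X_zero, mul_zero, add_zero,
        map_add]
      ring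
    have h4 : κ + γ ≠ 0 := fun h => hne (eq_neg_of_add_eq_zero_left h)
    rw [h3]
    have h5 : (C (C (κ + γ)) * Polynomial.X + C ((f.coeff 0).coeff 0) : k[X][X]) =
        C (C (κ + γ)) * (Polynomial.X - C (-(C (κ + γ)⁻¹ * (f.coeff 0).coeff 0))) := by
      rw [mul_sub, ← C_mul, mul_neg, ← mul_assoc, ← C_mul, mul_inv_cancel₀ h4, C_1, one_mul,
        C_neg, sub_neg_eq_add]
    rw [h5]
    have h6 : IsUnit (C (C (κ + γ)) : k[X][X]) := by
      rw [isUnit_C, isUnit_C]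
      exact h4.isUnit
    exact (irreducible_isUnit_mul h6).2 (irreducible_X_sub_C _)
  · have h3 := hB f f.natDegree d ⟨hf, rfl, hirr, h2, hd, hwt⟩ a₀ ha
    simpa only [theta_eq_fib] using h3

end Pool.Agent.Lib.MP_b197b4_ntK.Q
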