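import Mathlib
import Pool.Agent.Lib.MP_b197b4_ntQ.PenB
import Pool.Agent.Lib.MP_b197b4_ntK.KLocN
import Pool.Agent.Lib.MP_b197b4_ntG.GenN

/-!
# MP_b197b4_nt, project K1, pencils: the chart
-/

set_option autoImplicit false

namespace Pool.Agent.Lib.MP_b197b4_ntK.Q

open Polynomial

variable {k : Type} {F : Type} [Field k] [Field F] [Algebra k F] {n : ℕ}
  {x : Fin (n + 1) → F}

/-- The pencil on the chart `x0 ≠ 0`. -/
theorem pencil_chart [IsAlgClosed k] (hB : MPb197b4P.Bert k) (hS : SurfN k x) {M : ℕ} (hM : 1 ≤ M)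
    {f g x0 x1 : F} (hf : f ∈ hom k x M) (hg : g ∈ hom k x M)
    (h0 : x0 ∈ Submodule.span k (Set.range x)) (h1 : x1 ∈ Submodule.span k (Set.range x))
    (hx0 : x0 ≠ 0) (hz : NoZ k x M x0 x1 g) (m : Ideal (chartOf k x x0)) (hm : m.IsMaximal)
    (hX : x1 / x0 ∈ chartOf k x x0) (a₀ : k)
    (hXm : (⟨x1 / x0, hX⟩ - algebraMap k _ a₀ : chartOf k x x0) ∈ m)
    (hYm : (⟨g / x0 ^ M, div_mem_chartOf hg⟩ : chartOf k x x0) ∈ m)
    (hZm : (⟨f / x0 ^ M, div_mem_chartOf hf⟩ : chartOf k x x0) ∈ m)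
    (hpar : ∀ a ∈ m, ∃ s u v : chartOf k x x0, s ∉ m ∧
      (s : F) * a = u * (g / x0 ^ M) + v * (f / x0 ^ M))
    (huniq : ∀ m' : Ideal (chartOf k x x0), m'.IsMaximal →
      (⟨x1 / x0, hX⟩ - algebraMap k _ a₀ : chartOf k x x0) ∈ m' →
      (⟨g / x0 ^ M, div_mem_chartOf hg⟩ : chartOf k x x0) ∈ m' →
      (⟨f / x0 ^ M, div_mem_chartOf hf⟩ : chartOf k x x0) ∈ m' → m' = m) :
    {κ : k | ¬ ∃ V : ValuationSubring F, IsCurve (chartOf k x x0) V ∧
      ord V (f / x0 ^ M - algebraMap k F κ * (g / x0 ^ M)) = 1 ∧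
      ∀ V', IsCurve (chartOf k x x0) V' →
        V'.valuation (f / x0 ^ M - algebraMap k F κ * (g / x0 ^ M)) < 1 → V' = V}.Finite := by
  have hA := chartN_chartOf hS h0 hx0
  obtain ⟨P, hP1, hP2, hP3, hP4, hP5, hP6, hP7⟩ :=
    exists_wt hS.ne hM h0 h1 hx0 hg hf hz hA
  set X := x1 / x0 with hXdef
  set Y := g / x0 ^ M with hYdef
  set Z := f / x0 ^ M with hZdef
  have hYA : Y ∈ chartOf k x x0 := div_mem_chartOf hg
  have hZA : Z ∈ chartOf k x x0 := div_mem_chartOf hf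
  have hle : alg3 k X Y Z ≤ chartOf k x x0 := by
    unfold alg3
    rw [Algebra.adjoin_le_iff]
    rintro a (rfl | rfl | rfl)
    · exact hX
    · exact hYA
    · exact hZA
  have hle2 : Algebra.adjoin k {X, Y} ≤ alg3 k X Y Z := by
    rw [Algebra.adjoin_le_iff]
    rintro a (rfl | rfl)
    · exact X_mem3
    · exact Y_mem3
  have hint : ∀ a ∈ chartOf k x x0, IsIntegral (alg3 k X Y Z) a := by
    intro a ha
    obtain ⟨p, hp, hpa⟩ := hP7 a ha
    refine ⟨p.map (Subalgebra.inclusion hle2).toRingHom, hp.map _, ?_⟩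
    rw [eval₂_map]
    exact hpa
  have hfg1 : (alg3 k X Y Z).FG := by
    refine ⟨(Set.toFinite {X, Y, Z}).toFinset, ?_⟩
    rw [Set.Finite.coe_toFinset]
    rfl
  have hcmp := compare_point hle hA.fg hint m ⟨Y, Y_mem3⟩ ⟨Z, Z_mem3⟩ hYm hZm (by
    intro m' hm' h
    refine huniq m' hm' ?_ ?_ ?_
    · exact h (lin1 a₀ X Y Z) hXm
    · exact h ⟨Y, Y_mem3⟩ hYm
    · exact h ⟨Z, Z_mem3⟩ hZm) hpar
  have hfr : IsFractionRing (alg3 k X Y Z) F := by
    refine frac_of_compare hA.frac fun a ha => ?_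
    obtain ⟨s, hs, hsa⟩ := hcmp a ha
    exact ⟨s, ne_zero_of_notMem_incl hle hs, hsa⟩
  haveI := hm.isPrime
  have hroot : ((P.eval 0).eval 0).rootMultiplicity a₀ = 1 := by
    refine simple_root hP5 (m.comap (Subalgebra.inclusion hle)) inferInstance a₀ hXm hYm hZm ?_
    obtain ⟨t, u, v, ht, htuv⟩ := hpar _ hXm
    obtain ⟨s1, hs1, ht1⟩ := hcmp t t.2
    obtain ⟨s2, hs2, hu1⟩ := hcmp u u.2
    obtain ⟨s3, hs3, hv1⟩ := hcmp v v.2
    refine ⟨s2 * s3 * ⟨_, ht1⟩, s1 * s3 * ⟨_, hu1⟩, s1 * s2 * ⟨_, hv1⟩, ?_, ?_⟩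
    · intro h
      have h' : Subalgebra.inclusion hle s2 * Subalgebra.inclusion hle s3 *
          (Subalgebra.inclusion hle s1 * t) ∈ m := h
      rcases hm.isPrime.mem_or_mem h' with h2 | h2
      · rcases hm.isPrime.mem_or_mem h2 with h3 | h3
        · exact hs2 h3
        · exact hs3 h3
      · rcases hm.isPrime.mem_or_mem h2 with h3 | h3
        · exact hs1 h3
        · exact ht h3
    · change (s2 : F) * s3 * (s1 * t) * (X - algebraMap k F a₀) =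
        s1 * s3 * (s2 * u) * Y + s1 * s2 * (s3 * v) * Z
      have h2 : (t : F) * (X - algebraMap k F a₀) = u * Y + v * Z := htuv
      linear_combination (s1 * s2 * s3 : F) * h2
  refine (finite_fib hB hM hP1 hP2 hP3 hP4 a₀ hroot).subset ?_
  intro κ hκ hirr
  apply hκ
  obtain ⟨V, hV1, -, -, hV2, hV3⟩ := curve_of_primeN hA hle hfg1 hint hfr (lin3 κ X Y Z)
    (lin3_ne_zero hP5 hP6 hirr) (isPrime_lin3 hP5 hirr)
    (fun Q hQ hlt => max_lin3 hP5 hirr Q hQ hlt)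
  exact ⟨V, hV1, hV2, hV3⟩

end Pool.Agent.Lib.MP_b197b4_ntK.Q
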