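import Mathlib
import Pool.Agent.Lib.MP_b197b4_ntQ.PenC
import Pool.Agent.Lib.MP_b197b4_ntK.FinN
import Pool.Agent.Lib.MP_b197b4_ntK.Avoid

/-!
# MP_b197b4_nt, project K1, pencils: zeros of forms and the choice of the coordinates
-/

set_option autoImplicit false

namespace Pool.Agent.Lib.MP_b197b4_ntK.Q

variable {k : Type} {F : Type} [Field k] [Field F] [Algebra k F] {n : ℕ}
  {x : Fin (n + 1) → F}

/-- The ideal of a point in terms of its local ring. -/
theorem isLoc_mem_iff {A : Subalgebra k F} {m : Ideal A} (hm : m.IsMaximal) {O : Subring F}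
    (hO : IsLoc A m O) (a : A) : a ∈ m ↔ ∀ y ∈ O, y * (a : F) ≠ 1 := by
  constructor
  · intro ha y hy h
    obtain ⟨b, s, hs, rfl⟩ := (hO y).1 hy
    have hs0 : (s : F) ≠ 0 := by
      intro h0
      apply hs
      have : s = 0 := Subtype.ext h0
      rw [this]
      exact m.zero_mem
    apply hs
    have h1 : s = b * a := by
      apply Subtype.ext
      change (s : F) = b * a
      field_simp at h
      exact h.symm
    rw [h1]
    exact m.mul_mem_left b ha
  · intro h
    by_contra ha
    have ha0 : (a : F) ≠ 0 := by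
      intro h0
      apply ha
      have : a = 0 := Subtype.ext h0
      rw [this]
      exact m.zero_mem
    exact h _ (hO.inv_mem ha) (inv_mul_cancel₀ ha0)

/-- Two points of a chart with the same local ring are equal. -/
theorem isLoc_ideal_unique {A : Subalgebra k F} {m m' : Ideal A} (hm : m.IsMaximal)
    (hm' : m'.IsMaximal) {O : Subring F} (hO : IsLoc A m O) (hO' : IsLoc A m' O) : m = m' := by
  ext a
  rw [isLoc_mem_iff hm hO, isLoc_mem_iff hm' hO']

theorem gen_div {O : Subring F} (hO : O ∈ Points (charts k x)) {w v : F} (hw : Gen k x O w)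
    (hv : v ∈ Submodule.span k (Set.range x)) : v / w ∈ O := hw.lin (point_over hO) hv

/-- Zeros of forms with any generator. -/
theorem zeroAt_gen (hx : ∀ i, x i ≠ 0) {O : Subring F} (hO : O ∈ Points (charts k x)) {w : F}
    (hw : Gen k x O w) {d : ℕ} {s : F} : ZeroAt x O d s ↔ ∀ y ∈ O, y * (s / w ^ d) ≠ 1 := by
  obtain ⟨i, hi⟩ := gen_of_point hx hO
  rw [zeroAt_iff hx hi.le]
  have hw0 := hw.ne
  have hi0 := hi.ne
  constructor
  · intro h y hy h1
    refine h (y * (x i / w) ^ d) (O.mul_mem hy (O.pow_mem (gen_div hO hw hi.mem) d)) ?_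
    rw [← h1, div_pow]
    field_simp
  · intro h y hy h1
    refine h (y * (w / x i) ^ d) (O.mul_mem hy (O.pow_mem (gen_div hO hi hw.mem) d)) ?_
    rw [← h1, div_pow]
    field_simp

theorem zeroAt_of_not (hx : ∀ i, x i ≠ 0) {O : Subring F} (hO : O ∈ Points (charts k x)) {d : ℕ}
    {s : F} (hs : s ≠ 0) (h : ¬ NotZero x O d s) : ZeroAt x O d s := by
  obtain ⟨i, hi⟩ := gen_of_point hx hO
  rw [zeroAt_iff hx hi.le]
  intro y hy h1
  refine h ⟨hs, x i, hi.ne, hi.le, ?_⟩
  rw [← eq_inv_of_mul_eq_one_left h1]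
  exact hy

/-- The linear forms which have, divided by `x0`, the same value at two points. -/
def sameVal (k : Type) {F : Type} [Field k] [Field F] [Algebra k F] {A : Subalgebra k F}
    (m m' : Ideal A) (x0 : F) : Submodule k F where
  carrier := {v | ∃ (a : A) (c : k), (a : F) = v / x0 ∧ a - algebraMap k A c ∈ m ∧
    a - algebraMap k A c ∈ m'}
  add_mem' := by
    rintro v v' ⟨a, c, ha, h1, h2⟩ ⟨b, c', hb, h3, h4⟩
    refine ⟨a + b, c + c', ?_, ?_, ?_⟩
    · change (a : F) + b = (v + v') / x0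
      rw [ha, hb, add_div]
    · have h5 : a + b - algebraMap k A (c + c') =
          (a - algebraMap k A c) + (b - algebraMap k A c') := by
        rw [map_add]
        ring
      rw [h5]
      exact add_mem h1 h3
    · have h5 : a + b - algebraMap k A (c + c') =
          (a - algebraMap k A c) + (b - algebraMap k A c') := by
        rw [map_add]
        ring
      rw [h5]
      exact add_mem h2 h4
  zero_mem' := ⟨0, 0, by simp, by simp, by simp⟩
  smul_mem' := by
    rintro r v ⟨a, c, ha, h1, h2⟩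
    have h5 : algebraMap k A r * a - algebraMap k A (r * c) =
        algebraMap k A r * (a - algebraMap k A c) := by
      rw [map_mul]
      ring
    refine ⟨algebraMap k A r * a, r * c, ?_, ?_, ?_⟩
    · change algebraMap k F r * (a : F) = (r • v) / x0
      rw [ha, Algebra.smul_def, mul_div_assoc]
    · rw [h5]
      exact m.mul_mem_left _ h1
    · rw [h5]
      exact m'.mul_mem_left _ h2

theorem eq_of_le_sameVal {x0 : F} {m m' : Ideal (chartOf k x x0)} (hm : m.IsMaximal)
    (hm' : m'.IsMaximal) (h : Submodule.span k (Set.range x) ≤ sameVal k m m' x0) : m = m' := by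
  have key : ∀ a : F, a ∈ chartOf k x x0 → ∀ ha : a ∈ chartOf k x x0, ∃ c : k,
      (⟨a, ha⟩ - algebraMap k _ c : chartOf k x x0) ∈ m ∧
      (⟨a, ha⟩ - algebraMap k _ c : chartOf k x x0) ∈ m' := by
    intro a h0
    induction h0 using Algebra.adjoin_induction with
    | mem y hy =>
      intro hy'
      obtain ⟨j, rfl⟩ := hy
      obtain ⟨a, c, ha, h1, h2⟩ := h (Submodule.subset_span ⟨j, rfl⟩)
      have : (⟨x j / x0, hy'⟩ : chartOf k x x0) = a := Subtype.ext ha.symm
      exact ⟨c, this ▸ h1, this ▸ h2⟩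
    | algebraMap c =>
      intro hc
      refine ⟨c, ?_, ?_⟩
      · have : (⟨algebraMap k F c, hc⟩ - algebraMap k _ c : chartOf k x x0) = 0 := sub_self _
        rw [this]
        exact m.zero_mem
      · have : (⟨algebraMap k F c, hc⟩ - algebraMap k _ c : chartOf k x x0) = 0 := sub_self _
        rw [this]
        exact m'.zero_mem
    | add y z hy hz h4 h5 =>
      intro _
      obtain ⟨c, h6, h7⟩ := h4 hy
      obtain ⟨c', h8, h9⟩ := h5 hz
      have h10 : ((⟨y, hy⟩ + ⟨z, hz⟩ : chartOf k x x0) - algebraMap k _ (c + c')) =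
          (⟨y, hy⟩ - algebraMap k _ c) + (⟨z, hz⟩ - algebraMap k _ c') := by
        rw [map_add]
        ring
      refine ⟨c + c', ?_, ?_⟩
      · change ((⟨y, hy⟩ + ⟨z, hz⟩ : chartOf k x x0) - algebraMap k _ (c + c')) ∈ m
        rw [h10]
        exact add_mem h6 h8
      · change ((⟨y, hy⟩ + ⟨z, hz⟩ : chartOf k x x0) - algebraMap k _ (c + c')) ∈ m'
        rw [h10]
        exact add_mem h7 h9
    | mul y z hy hz h4 h5 =>
      intro _
      obtain ⟨c, h6, h7⟩ := h4 hy
      obtain ⟨c', h8, h9⟩ := h5 hz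
      have h10 : ((⟨y, hy⟩ * ⟨z, hz⟩ : chartOf k x x0) - algebraMap k _ (c * c')) =
          (⟨y, hy⟩ - algebraMap k _ c) * ⟨z, hz⟩ +
            algebraMap k _ c * (⟨z, hz⟩ - algebraMap k _ c') := by
        rw [map_mul]
        ring
      refine ⟨c * c', ?_, ?_⟩
      · change ((⟨y, hy⟩ * ⟨z, hz⟩ : chartOf k x x0) - algebraMap k _ (c * c')) ∈ m
        rw [h10]
        exact add_mem (m.mul_mem_right _ h6) (m.mul_mem_left _ h8)
      · change ((⟨y, hy⟩ * ⟨z, hz⟩ : chartOf k x x0) - algebraMap k _ (c * c')) ∈ m'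
        rw [h10]
        exact add_mem (m'.mul_mem_right _ h7) (m'.mul_mem_left _ h9)
  refine hm.eq_of_le hm'.ne_top ?_
  rintro ⟨a, ha⟩ ham
  obtain ⟨c, h1, h2⟩ := key a ha ha
  have hc : c = 0 := by
    by_contra hc
    have h3 : algebraMap k (chartOf k x x0) c ∈ m := by
      have h4 := sub_mem ham h1
      rwa [sub_sub_cancel] at h4
    apply hm.ne_top
    rw [Ideal.eq_top_iff_one]
    have h6 := m.mul_mem_left (algebraMap k _ c⁻¹) h3
    rwa [← map_mul, inv_mul_cancel₀ hc, map_one] at h6
  rw [hc, map_zero, sub_zero] at h2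
  exact h2

end Pool.Agent.Lib.MP_b197b4_ntK.Q
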