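import Mathlib
import Pool.Agent.Lib.MP_b197b4_ntQ.PenD
import Pool.Agent.Lib.MP_b197b4_ntA.ADefs

/-!
# MP_b197b4_nt, project K1: pencils with one transversal base point
-/

set_option autoImplicit false

namespace Pool.Agent.Lib.MP_b197b4_ntK.Q

variable {k : Type} {F : Type} [Field k] [Field F] [Algebra k F] {n : ℕ}
  {x : Fin (n + 1) → F}

theorem pen_ord_zero (V : ValuationSubring F) : ord V (0 : F) = 0 := by
  unfold ord
  rw [dif_neg]
  rintro ⟨n, π, u, hπ, h⟩
  have h1 : (π : F) ^ n * ((u : V) : F) ≠ 0 :=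
    mul_ne_zero (zpow_ne_zero _ fun h => hπ.ne_zero (Subtype.ext h))
      fun h => u.ne_zero (Subtype.ext h)
  exact h1 h.symm

/-- The order of a form on a curve does not depend on the generator. -/
theorem pen_ord (hx : ∀ i, x i ≠ 0) {V : ValuationSubring F} (hV : V ∈ Curves (charts k x))
    {w : F} (hw : Gen k x V.toSubring w) (d : ℕ) {f : F} (hf : f ≠ 0) :
    ord V (f / w ^ d) = vh x V d f := by
  have hD : IsDiscreteValuationRing V := by
    obtain ⟨A, _, hA⟩ := hV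
    exact hA.1
  have hk := curve_over hV
  have h1 : 0 ≤ ord V (x (idx x V) / w) :=
    (ord_nonneg_iff hD (div_ne_zero (hx _) hw.ne)).2 (hw.le _)
  have h2 : 0 ≤ ord V (w / x (idx x V)) := by
    refine (ord_nonneg_iff hD (div_ne_zero hw.ne (hx _))).2 ?_
    refine lin_of_le (O := V.toSubring) hk (fun j => ?_) hw.mem
    change x j / x (idx x V) ∈ V
    rw [← ord_nonneg_iff hD (div_ne_zero (hx _) (hx _)), ord_div hD (hx _) (hx _)]
    have := idx_le x V j
    omega
  rw [ord_div hD (hx _) hw.ne] at h1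
  rw [ord_div hD hw.ne (hx _)] at h2
  have h3 : ord V w = ord V (x (idx x V)) := by omega
  rw [ord_div hD hf (pow_ne_zero _ hw.ne), ord_pow hD hw.ne, h3]
  rfl

/-- A linear form which is not zero on the curve is a generator. -/
theorem pen_gen (hx : ∀ i, x i ≠ 0) {V : ValuationSubring F} (hV : V ∈ Curves (charts k x))
    {w : F} (hw : w ∈ Submodule.span k (Set.range x)) (hw0 : w ≠ 0)
    (h : vh x V (1 : ℕ) w = 0) : Gen k x V.toSubring w := by
  have hD : IsDiscreteValuationRing V := by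
    obtain ⟨A, _, hA⟩ := hV
    exact hA.1
  refine ⟨hw, hw0, fun j => ?_⟩
  change x j / w ∈ V
  rw [← ord_nonneg_iff hD (div_ne_zero (hx _) hw0), ord_div hD (hx _) hw0]
  have h1 := idx_le x V j
  unfold vh at h
  push_cast at h
  omega

theorem gen_vh (hx : ∀ i, x i ≠ 0) {V : ValuationSubring F} (hV : V ∈ Curves (charts k x))
    {w : F} (hw : Gen k x V.toSubring w) : vh x V (1 : ℕ) w = 0 := by
  rw [← pen_ord hx hV hw 1 hw.ne, pow_one, div_self hw.ne]
  obtain ⟨A, _, hA⟩ := hV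
  exact ord_one V hA.1

theorem curve_dvr {V : ValuationSubring F} (hV : V ∈ Curves (charts k x)) :
    IsDiscreteValuationRing V := by
  obtain ⟨A, _, hA⟩ := hV
  exact hA.1

/-- A curve is in at most one member of a pencil of coprime forms. -/
theorem pen_subsingleton (hx : ∀ i, x i ≠ 0) {M : ℕ} {f g : F}
    (hc : Copr x (Curves (charts k x)) f M g M) {V : ValuationSubring F}
    (hV : V ∈ Curves (charts k x)) :
    {κ : k | V.valuation (hat x V M (f - algebraMap k F κ * g)) < 1}.Subsingleton := by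
  have hD := curve_dvr hV
  have hk := curve_over hV
  have hconst : ∀ c : k, c ≠ 0 → V.valuation (algebraMap k F c) = 1 := by
    intro c hc0
    refine (ValuationSubring.valuation_eq_one_iff V (⟨_, hk c⟩ : V)).1 ?_
    refine IsUnit.of_mul_eq_one (⟨_, hk c⁻¹⟩ : V) ?_
    apply Subtype.ext
    change algebraMap k F c * algebraMap k F c⁻¹ = 1
    rw [← map_mul, mul_inv_cancel₀ hc0, map_one]
  have hlin : ∀ κ : k, hat x V M (f - algebraMap k F κ * g) =
      hat x V M f - algebraMap k F κ * hat x V M g := by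
    intro κ
    unfold hat
    rw [sub_div, mul_div_assoc]
  intro κ hκ κ' hκ'
  by_contra hne
  rw [Set.mem_ofPred_eq, hlin] at hκ hκ'
  have h1 : V.valuation (hat x V M g) < 1 := by
    have h2 : (hat x V M f - algebraMap k F κ * hat x V M g) -
        (hat x V M f - algebraMap k F κ' * hat x V M g) =
        algebraMap k F (κ' - κ) * hat x V M g := by
      rw [map_sub]
      ring
    have h3 := lt_of_le_of_lt (V.valuation.map_sub _ _) (max_lt hκ hκ')
    rwa [h2, map_mul, hconst _ (sub_ne_zero.2 (Ne.symm hne)), one_mul] at h3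
  have h4 : V.valuation (hat x V M f) < 1 := by
    have h5 : hat x V M f = (hat x V M f - algebraMap k F κ * hat x V M g) +
        algebraMap k F κ * hat x V M g := by ring
    have h6 : V.valuation (algebraMap k F κ * hat x V M g) < 1 := by
      rw [map_mul]
      calc V.valuation (algebraMap k F κ) * V.valuation (hat x V M g)
          ≤ 1 * V.valuation (hat x V M g) :=
            mul_le_mul_left ((V.valuation_le_one_iff _).2 (hk κ)) _
        _ < 1 := by rwa [one_mul]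
    rw [h5]
    exact lt_of_le_of_lt (V.valuation.map_add _ _) (max_lt hκ h6)
  have h7 := (ord_pos_iff hD (hat_ne hx V M hc.1)).2 h4
  have h8 := (ord_pos_iff hD (hat_ne hx V M hc.2.1)).2 h1
  rw [ord_hat hx hD M hc.1] at h7
  rw [ord_hat hx hD M hc.2.1] at h8
  rcases (hc.2.2 V hV).2.2 with h | h <;> omega

/-- **PENCILS.** -/
theorem pencil [IsAlgClosed k] (hB : MPb197b4P.Bert k) (hS : SurfN k x) : Pencil k x := by
  classical
  rintro M f g hf hg hc ⟨O, hO, -, w, hw, hα, hβ, hpar⟩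
  have hx := hS.ne
  have hf0 := hc.1
  have hg0 := hc.2.1
  have hunit : ∀ y : O, y ∈ Ideal.span {(⟨f / w ^ M, hα⟩ : O), ⟨g / w ^ M, hβ⟩} →
      ∀ z ∈ O, z * (y : F) ≠ 1 := by
    intro y hy z hz h
    refine (hpar y).1 hy ?_
    refine IsUnit.of_mul_eq_one (⟨z, hz⟩ : O) ?_
    apply Subtype.ext
    change (y : F) * z = 1
    rw [mul_comm]
    exact h
  have hfO : ∀ z ∈ O, z * (f / w ^ M) ≠ 1 :=
    hunit ⟨_, hα⟩ (Ideal.subset_span (Or.inl rfl))
  have hgO : ∀ z ∈ O, z * (g / w ^ M) ≠ 1 :=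
    hunit ⟨_, hβ⟩ (Ideal.subset_span (Or.inr rfl))
  have hM : 1 ≤ M := by
    by_contra hM
    have hM0 : M = 0 := by omega
    subst hM0
    have h1 : f ∈ (1 : Submodule k F) := by
      have h2 := hf
      unfold hom at h2
      rwa [pow_zero] at h2
    obtain ⟨c, rfl⟩ := Submodule.mem_one.1 h1
    have hc0 : c ≠ 0 := by
      rintro rfl
      exact hf0 (map_zero _)
    refine hfO (algebraMap k F c⁻¹) (point_over hO c⁻¹) ?_
    rw [pow_zero, div_one, ← map_mul, inv_mul_cancel₀ hc0, map_one]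
  -- the common zeros
  have hT := hS.zero_finite hf hg hc
  set T := {O' | O' ∈ Points (charts k x) ∧ ZeroAt x O' M f ∧ ZeroAt x O' M g} with hTdef
  have hOT : O ∈ T := ⟨hO, (zeroAt_gen hx hO hw).2 hfO, (zeroAt_gen hx hO hw).2 hgO⟩
  have hSf := vh_finite (x := x) (D := Curves (charts k x)) hS.curves_finite hx M hg0
  obtain ⟨x0, h0, hx0, hSx0, hTx0⟩ := av_exists_gen (k := k) hx hSf (fun V hV => hV.1) hT
    (fun O' hO' => hO'.1)
  have hT0 := hS.zero_finite (a := 1) (b := M) (mem_hom_one.2 h0) hg ⟨hx0, hg0, fun V hV => by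
    refine ⟨vh_nonneg (curve_dvr hV) (curve_over hV) hx (mem_hom_one.2 h0) hx0,
      (hc.2.2 V hV).2.1, ?_⟩
    by_cases h : vh x V M g = 0
    · exact Or.inr h
    · left
      exact gen_vh hx hV ⟨h0, hx0, hSx0 V ⟨hV, h⟩⟩⟩
  have hA := chartN_chartOf hS h0 hx0
  have hgenO : Gen k x O x0 := ⟨h0, hx0, hTx0 O hOT⟩
  obtain ⟨m, hm, hmO⟩ := exists_isLoc hx hO hgenO
  choose! mm hmm hmmO using fun O' (hO' : O' ∈ T) =>
    exists_isLoc hx hO'.1 (w := x0) ⟨h0, hx0, hTx0 O' hO'⟩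
  obtain ⟨x1, h1, hx1, -, hT0x1, hUx1⟩ := avoid (k := k) hx (S := ∅) Set.finite_empty
    (fun V hV => absurd hV (Set.notMem_empty V)) hT0 (fun O' hO' => hO'.1)
    (U := (fun O' => sameVal k m (mm O') x0) '' (T \ {O}))
    ((hT.subset Set.sdiff_subset).image _) (by
      rintro u ⟨O', hO', rfl⟩ hle
      have h2 := eq_of_le_sameVal hm (hmm O' hO'.1) hle
      have h3 := hmmO O' hO'.1
      rw [← h2] at h3
      exact hO'.2 (h3.unique hmO))
  have hz : NoZ k x M x0 x1 g := by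
    intro O' hO'
    by_contra hcon
    push Not at hcon
    obtain ⟨hn0, hn1, hn2⟩ := hcon
    have h2 : O' ∈ {O | O ∈ Points (charts k x) ∧ ZeroAt x O 1 x0 ∧ ZeroAt x O M g} :=
      ⟨hO', zeroAt_of_not hx hO' hx0 hn0, zeroAt_of_not hx hO' hg0 hn2⟩
    refine hn1 ⟨hx1, x1, hx1, hT0x1 O' h2, ?_⟩
    rw [pow_one, div_self hx1, inv_one]
    exact O'.one_mem
  have hX : x1 / x0 ∈ chartOf k x x0 := by
    have := div_mem_chartOf (w := x0) (mem_hom_one.2 h1)
    rwa [pow_one] at this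
  obtain ⟨a₀, ha₀⟩ := exists_const_sub_mem hA.fg m (⟨x1 / x0, hX⟩ : chartOf k x x0)
  have hYm : (⟨g / x0 ^ M, div_mem_chartOf hg⟩ : chartOf k x x0) ∈ m := by
    rw [isLoc_mem_iff hm hmO, ← zeroAt_gen hx hO hgenO]
    exact hOT.2.2
  have hZm : (⟨f / x0 ^ M, div_mem_chartOf hf⟩ : chartOf k x x0) ∈ m := by
    rw [isLoc_mem_iff hm hmO, ← zeroAt_gen hx hO hgenO]
    exact hOT.2.1
  have hbad1 := pencil_chart hB hS hM hf hg h0 h1 hx0 hz m hm hX a₀ ha₀ hYm hZm (by
    intro a ha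
    have h2 : (⟨(a : F), mem_of_isLoc hm.ne_top hmO a.2⟩ : O) ∈
        Ideal.span {(⟨f / w ^ M, hα⟩ : O), ⟨g / w ^ M, hβ⟩} := by
      rw [hpar]
      intro hu
      obtain ⟨h3, h4⟩ := (isUnit_iff_inv _).1 hu
      exact (isLoc_mem_iff hm hmO a).1 ha _ h4 (inv_mul_cancel₀ h3)
    obtain ⟨⟨c1, hc1⟩, ⟨c2, hc2⟩, h3⟩ := Ideal.mem_span_pair.1 h2
    have h4 : c1 * (f / w ^ M) + c2 * (g / w ^ M) = a := congrArg Subtype.val h3
    have h5 : (x0 / w) ^ M ∈ O := O.pow_mem (gen_div hO hw h0) M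
    obtain ⟨b1, s1, hs1, hb1⟩ := (hmO _).1 (O.mul_mem hc1 h5)
    obtain ⟨b2, s2, hs2, hb2⟩ := (hmO _).1 (O.mul_mem hc2 h5)
    have hs10 := coe_ne_zero_of_notMem hs1
    have hs20 := coe_ne_zero_of_notMem hs2
    refine ⟨s1 * s2, b2 * s1, b1 * s2, ?_, ?_⟩
    · intro h
      rcases hm.isPrime.mem_or_mem h with h | h
      · exact hs1 h
      · exact hs2 h
    · have hw0 := hw.ne
      have hd : ∀ s : F, s / w ^ M = (x0 / w) ^ M * (s / x0 ^ M) := by
        intro s
        rw [div_pow]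
        field_simp
      rw [hd f, hd g] at h4
      have hb1' : c1 * (x0 / w) ^ M * s1 = b1 := by
        rw [hb1]
        field_simp
      have hb2' : c2 * (x0 / w) ^ M * s2 = b2 := by
        rw [hb2]
        field_simp
      change (s1 : F) * s2 * a = b2 * s1 * (g / x0 ^ M) + b1 * s2 * (f / x0 ^ M)
      rw [← hb1', ← hb2', ← h4]
      ring) (by
    intro m' hm' hXm' hYm' hZm'
    obtain ⟨O', hO', hgen', hmO'⟩ := exists_point hx h0 hx0 hm'
    have hO'T : O' ∈ T := by
      refine ⟨hO', ?_, ?_⟩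
      · rw [zeroAt_gen hx hO' hgen', ← isLoc_mem_iff hm' hmO' ⟨_, div_mem_chartOf hf⟩]
        exact hZm'
      · rw [zeroAt_gen hx hO' hgen', ← isLoc_mem_iff hm' hmO' ⟨_, div_mem_chartOf hg⟩]
        exact hYm'
    have h2 : mm O' = m' := isLoc_ideal_unique (hmm O' hO'T) hm' (hmmO O' hO'T) hmO'
    by_cases hOO : O' = O
    · subst hOO
      exact isLoc_ideal_unique hm' hm hmO' hmO
    · exfalso
      refine hUx1 _ ⟨O', ⟨hO'T, hOO⟩, rfl⟩ ?_
      refine ⟨⟨x1 / x0, hX⟩, a₀, rfl, ha₀, ?_⟩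
      rw [h2]
      exact hXm')
  -- the curves at infinity
  have hE := vh_finite (x := x) (D := Curves (charts k x)) hS.curves_finite hx (1 : ℕ) hx0
  have hbad2 := hE.biUnion (t := fun V => {κ : k | V.valuation
    (hat x V M (f - algebraMap k F κ * g)) < 1}) fun V hV => (pen_subsingleton hx hc hV.1).finite
  refine ((hbad1.union hbad2).image Neg.neg).subset ?_
  intro τ hτ
  by_contra hcon
  apply hτ
  have hcon' : -τ ∉ {κ : k | ¬ ∃ V : ValuationSubring F, IsCurve (chartOf k x x0) V ∧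
      ord V (f / x0 ^ M - algebraMap k F κ * (g / x0 ^ M)) = 1 ∧
      ∀ V', IsCurve (chartOf k x x0) V' →
        V'.valuation (f / x0 ^ M - algebraMap k F κ * (g / x0 ^ M)) < 1 → V' = V} ∧
      ∀ V ∈ {V | V ∈ Curves (charts k x) ∧ vh x V (1 : ℕ) x0 ≠ 0},
        ¬ V.valuation (hat x V M (f - algebraMap k F (-τ) * g)) < 1 := by
    constructor
    · intro h
      exact hcon ⟨-τ, Or.inl h, neg_neg τ⟩
    · intro V hV h
      exact hcon ⟨-τ, Or.inr (Set.mem_biUnion hV h), neg_neg τ⟩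
  obtain ⟨hcon1, hcon2⟩ := hcon'
  rw [Set.mem_ofPred_eq, not_not] at hcon1
  obtain ⟨V, hV1, hV2, hV3⟩ := hcon1
  have ht : f - algebraMap k F (-τ) * g = f + algebraMap k F τ * g := by
    rw [map_neg]
    ring
  have ht' : f / x0 ^ M - algebraMap k F (-τ) * (g / x0 ^ M) =
      (f + algebraMap k F τ * g) / x0 ^ M := by
    rw [← ht, sub_div, mul_div_assoc]
  simp only [ht'] at hV2 hV3
  simp only [ht] at hcon2
  have hth : f + algebraMap k F τ * g ∈ hom k x M := by
    refine add_mem hf ?_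
    rw [← Algebra.smul_def]
    exact Submodule.smul_mem _ τ hg
  have ht0 : f + algebraMap k F τ * g ≠ 0 := by
    intro h
    rw [h, zero_div, pen_ord_zero] at hV2
    exact absurd hV2 (by norm_num)
  obtain ⟨hVC, hVg⟩ := (curve_iff hx h0 hx0).1 hV1
  refine ⟨V, hth, ht0, hVC, ?_, ?_⟩
  · rw [← pen_ord hx hVC hVg M ht0]
    exact hV2
  · intro V' hV' hne
    have hD := curve_dvr hV'
    by_cases hv : vh x V' (1 : ℕ) x0 = 0
    · have hg' := pen_gen hx hV' h0 hx0 hv
      have hcV' := (curve_iff hx h0 hx0).2 ⟨hV', hg'⟩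
      rw [← pen_ord hx hV' hg' M ht0, ord_eq_zero_iff hD (div_ne_zero ht0 (pow_ne_zero _ hx0))]
      have h2 : ¬ V'.valuation ((f + algebraMap k F τ * g) / x0 ^ M) < 1 :=
        fun h => hne (hV3 V' hcV' h)
      have h3 : V'.valuation ((f + algebraMap k F τ * g) / x0 ^ M) ≤ 1 :=
        (V'.valuation_le_one_iff _).2 (hcV'.2.1 _ (div_mem_chartOf hth))
      exact le_antisymm h3 (not_lt.1 h2)
    · have h2 := hcon2 V' ⟨hV', hv⟩
      have h3 : V'.valuation (hat x V' M (f + algebraMap k F τ * g)) ≤ 1 :=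
        (V'.valuation_le_one_iff _).2 (hat_mem hD (curve_over hV') hx hth)
      have h4 := (ord_eq_zero_iff hD (hat_ne hx V' M ht0)).2 (le_antisymm h3 (not_lt.1 h2))
      rw [ord_hat hx hD M ht0] at h4
      exact h4

end Pool.Agent.Lib.MP_b197b4_ntK.Q

namespace Pool.Agent.Lib.MP_b197b4_ntK

/-- **PENCILS.** -/
theorem pencil {k F : Type} [Field k] [Field F] [Algebra k F] {n : ℕ} {x : Fin (n + 1) → F}
    [IsAlgClosed k] (hB : MPb197b4P.Bert k) (hS : SurfN k x) : Pencil k x :=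
  Q.pencil hB hS

end Pool.Agent.Lib.MP_b197b4_ntK
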