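import Mathlib
import Pool.Agent.Lib.MP_b197b4_ntD.Dim
import Pool.Agent.Lib.MP_b197b4_ntX.X0

/-!
# MP_b197b4_nt, project K1-ALL, block Q: the chart of a blow up at a regular point
-/

set_option autoImplicit false
set_option linter.style.haveILetI false

namespace Pool.Agent.Lib.MP_b197b4_ntQ

open IsLocalRing Pool.Agent.Lib.MP_b197b4_ntD

variable {k F : Type} [Field k] [Field F] [Algebra k F]

/-- The chart `A[x i / x i0]` of the blow up of the ideal generated by the `x i`. -/
def bl (A : Subalgebra k F) {ι : Type} (x : ι → A) (i0 : ι) : Subalgebra k F :=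
  Algebra.adjoin k ((A : Set F) ∪ Set.range fun i => (x i : F) / (x i0 : F))

section

variable {A : Subalgebra k F} {ι : Type} {x : ι → A} {i0 : ι}

theorem le_bl : A ≤ bl A x i0 := fun _ ha => Algebra.subset_adjoin (Or.inl ha)

theorem div_mem_bl (i : ι) : (x i : F) / (x i0 : F) ∈ bl A x i0 :=
  Algebra.subset_adjoin (Or.inr ⟨i, rfl⟩)

/-- The quotient `x i / x i0` in the chart. -/
def qt (x : ι → A) (i0 i : ι) : bl A x i0 := ⟨(x i : F) / (x i0 : F), div_mem_bl i⟩

/-- The inclusion. -/
def inc (x : ι → A) (i0 : ι) : A →ₐ[k] bl A x i0 := Subalgebra.inclusion le_bl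

theorem inc_coe (a : A) : ((inc x i0 a : bl A x i0) : F) = a := rfl

theorem coe_ne (hx0 : x i0 ≠ 0) : (x i0 : F) ≠ 0 := fun h => hx0 (Subtype.ext h)

theorem inc_x (hx0 : x i0 ≠ 0) (i : ι) : inc x i0 (x i) = inc x i0 (x i0) * qt x i0 i := by
  apply Subtype.ext
  change (x i : F) = (x i0 : F) * ((x i : F) / (x i0 : F))
  rw [mul_div_cancel₀ _ (coe_ne hx0)]

theorem qt_self (hx0 : x i0 ≠ 0) : qt x i0 i0 = 1 := by
  apply Subtype.ext
  change (x i0 : F) / (x i0 : F) = 1
  exact div_self (coe_ne hx0)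

/-- Induction for the chart. -/
theorem bl_induction {p : bl A x i0 → Prop} (hA : ∀ a : A, p (inc x i0 a))
    (hq : ∀ i, p (qt x i0 i)) (hadd : ∀ f g, p f → p g → p (f + g))
    (hmul : ∀ f g, p f → p g → p (f * g)) (f : bl A x i0) : p f := by
  obtain ⟨y, hy⟩ := f
  unfold bl at hy
  induction hy using Algebra.adjoin_induction with
  | mem y hy =>
    rcases hy with hy | ⟨i, rfl⟩
    · exact hA ⟨y, hy⟩
    · exact hq i
  | algebraMap r => exact hA (algebraMap k A r)
  | add y z hy hz h1 h2 => exact hadd ⟨y, hy⟩ ⟨z, hz⟩ h1 h2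
  | mul y z hy hz h1 h2 => exact hmul ⟨y, hy⟩ ⟨z, hz⟩ h1 h2

/-- The elements of the chart are fractions `g / x i0 ^ N` with `g` in the power `N` of the
ideal. -/
theorem exists_pow (hx0 : x i0 ≠ 0) (f : bl A x i0) :
    ∃ N : ℕ, ∃ g ∈ Ideal.span (Set.range x) ^ N, (f : F) * (x i0 : F) ^ N = (g : F) := by
  refine bl_induction (p := fun f => ∃ N : ℕ, ∃ g ∈ Ideal.span (Set.range x) ^ N,
    (f : F) * (x i0 : F) ^ N = (g : F)) ?_ ?_ ?_ ?_ f
  · intro a
    refine ⟨0, a, by simp, ?_⟩
    rw [pow_zero, mul_one]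
    rfl
  · intro i
    refine ⟨1, x i, ?_, ?_⟩
    · rw [pow_one]
      exact Ideal.subset_span ⟨i, rfl⟩
    · rw [pow_one]
      exact div_mul_cancel₀ _ (coe_ne hx0)
  · rintro f g ⟨N, a, ha, h1⟩ ⟨M, b, hb, h2⟩
    have hx : ∀ n : ℕ, x i0 ^ n ∈ Ideal.span (Set.range x) ^ n := fun n =>
      Ideal.pow_mem_pow (Ideal.subset_span (Set.mem_range_self i0)) n
    refine ⟨N + M, a * x i0 ^ M + b * x i0 ^ N, ?_, ?_⟩
    · refine add_mem ?_ ?_
      · rw [pow_add]
        exact Ideal.mul_mem_mul ha (hx M)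
      · rw [add_comm N M, pow_add]
        exact Ideal.mul_mem_mul hb (hx N)
    · push_cast
      rw [← h1, ← h2]
      ring
  · rintro f g ⟨N, a, ha, h1⟩ ⟨M, b, hb, h2⟩
    refine ⟨N + M, a * b, ?_, ?_⟩
    · rw [pow_add]
      exact Ideal.mul_mem_mul ha hb
    · push_cast
      rw [← h1, ← h2]
      ring

/-- Conversely. -/
theorem mem_bl_of_pow {N : ℕ} {g : A} (hg : g ∈ Ideal.span (Set.range x) ^ N) :
    (g : F) / (x i0 : F) ^ N ∈ bl A x i0 := by
  induction N generalizing g with
  | zero =>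
    rw [pow_zero, div_one]
    exact le_bl g.2
  | succ N ih =>
    rw [pow_succ] at hg
    induction hg using Submodule.mul_induction_on' with
    | mem_mul_mem a ha b hb =>
      have h1 : (b : F) / (x i0 : F) ∈ bl A x i0 := by
        induction hb using Submodule.span_induction with
        | mem y hy =>
          obtain ⟨i, rfl⟩ := hy
          exact div_mem_bl i
        | zero =>
          change ((0 : A) : F) / _ ∈ _
          rw [ZeroMemClass.coe_zero, zero_div]
          exact zero_mem _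
        | add y z _ _ hy hz =>
          push_cast
          rw [add_div]
          exact add_mem hy hz
        | smul c y _ hy =>
          rw [smul_eq_mul]
          push_cast
          rw [mul_div_assoc]
          exact mul_mem (le_bl c.2) hy
      have h2 : ((a * b : A) : F) / (x i0 : F) ^ (N + 1) =
          (a : F) / (x i0 : F) ^ N * ((b : F) / (x i0 : F)) := by
        push_cast
        rw [pow_succ, div_mul_div_comm]
      rw [h2]
      exact mul_mem (ih ha) h1
    | add a _ b _ h1 h2 =>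
      push_cast
      rw [add_div]
      exact add_mem h1 h2

theorem bl_fg [Finite ι] (hA : A.FG) : (bl A x i0).FG := by
  unfold bl
  rw [Algebra.adjoin_union, Algebra.adjoin_eq]
  refine Subalgebra.FG.sup hA ?_
  exact ⟨(Set.finite_range fun i => (x i : F) / (x i0 : F)).toFinset, by simp⟩

theorem bl_frac (hA : IsFractionRing A F) : IsFractionRing (bl A x i0) F := by
  apply IsFractionRing.of_field
  intro z
  obtain ⟨a, b, hb, rfl⟩ := IsFractionRing.div_surjective (A := A) z
  exact ⟨inc x i0 a, inc x i0 b, rfl⟩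

variable [Fintype ι]

theorem bl_hasDim (hA : A.FG) (hf : IsFractionRing A F) {s : ℕ} (h : HasDim k A s) :
    HasDim k (bl A x i0) s := by
  haveI := bl_frac (x := x) (i0 := i0) hf
  haveI : Algebra.FiniteType k (bl A x i0) := (Subalgebra.fg_iff_finiteType _).1 (bl_fg hA)
  exact h.of_frac F

/-- `x i0` is not a unit of the chart. -/
theorem span_ne_top [Infinite k] (hx0 : x i0 ≠ 0) [IsNoetherianRing A] {m : Ideal A}
    [hm : m.IsPrime] (hxm : Ideal.span (Set.range x) = m) (hh : m.height = Fintype.card ι) :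
    Ideal.span {inc x i0 (x i0)} ≠ ⊤ := by
  intro htop
  have h1 : (1 : bl A x i0) ∈ Ideal.span {inc x i0 (x i0)} := by rw [htop]; trivial
  obtain ⟨f, hf⟩ := Ideal.mem_span_singleton'.1 h1
  obtain ⟨N, g, hg, h2⟩ := exists_pow hx0 f
  have h3 : (f : F) * (x i0 : F) = 1 := congrArg (Subtype.val : bl A x i0 → F) hf
  -- `x i0 ^ N = g * x i0`
  have h4 : x i0 ^ N = g * x i0 := by
    apply Subtype.ext
    push_cast
    rw [← h2, mul_right_comm, h3, one_mul]
  have h5 : x i0 ^ N ∈ m ^ (N + 1) := by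
    rw [h4, pow_succ, ← hxm]
    exact Ideal.mul_mem_mul hg (Ideal.subset_span (Set.mem_range_self i0))
  let O := Localization.AtPrime m
  haveI : IsNoetherianRing O := IsLocalization.isNoetherianRing m.primeCompl O inferInstance
  have hmax : Ideal.span (Set.range fun i => algebraMap A O (x i)) = maximalIdeal O := by
    have h6 : Ideal.map (algebraMap A O) (Ideal.span (Set.range x)) = maximalIdeal O := by
      rw [hxm]
      exact Localization.AtPrime.map_eq_maximalIdeal
    rw [← h6, Ideal.map_span, ← Set.range_comp]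
    rfl
  have hdim : ringKrullDim O = (Fintype.card ι : ℕ) := by
    rw [IsLocalization.AtPrime.ringKrullDim_eq_height m O, hh]
    rfl
  have hG : (MvPolynomial.X i0 ^ N : MvPolynomial ι k).IsHomogeneous N := by
    have := (MvPolynomial.isHomogeneous_X k i0).pow N
    rwa [one_mul] at this
  have hG0 : (MvPolynomial.X i0 ^ N : MvPolynomial ι k) ≠ 0 :=
    pow_ne_zero _ (MvPolynomial.X_ne_zero i0)
  apply MP_b197b4_ntX.form_lemma (fun i => algebraMap A O (x i)) hmax hdim hG hG0
  rw [map_pow, MvPolynomial.aeval_X, ← map_pow, ← Localization.AtPrime.map_eq_maximalIdeal,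
    ← Ideal.map_pow]
  exact Ideal.mem_map_of_mem _ h5

end

section Quotient

variable {A : Subalgebra k F} {ι : Type} {x : ι → A} {i0 : ι}

/-- The polynomial ring maps onto the exceptional divisor. -/
noncomputable def pj (x : ι → A) (i0 : ι) :
    MvPolynomial {i // i ≠ i0} k →ₐ[k] bl A x i0 ⧸ Ideal.span {inc x i0 (x i0)} :=
  MvPolynomial.aeval fun i => Ideal.Quotient.mk _ (qt x i0 i)

theorem pj_surjective (hx0 : x i0 ≠ 0)
    (hk : ∀ a : A, ∃ c : k, a - algebraMap k A c ∈ Ideal.span (Set.range x)) :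
    Function.Surjective (pj x i0) := by
  classical
  rw [← AlgHom.range_eq_top, eq_top_iff]
  rintro y -
  obtain ⟨f, rfl⟩ := Ideal.Quotient.mk_surjective y
  refine bl_induction (p := fun f => Ideal.Quotient.mk _ f ∈ (pj x i0).range) ?_ ?_ ?_ ?_ f
  · intro a
    obtain ⟨c, hc⟩ := hk a
    have h1 : Ideal.Quotient.mk (Ideal.span {inc x i0 (x i0)}) (inc x i0 a) =
        algebraMap k _ c := by
      have h2 : inc x i0 (a - algebraMap k A c) ∈ Ideal.span {inc x i0 (x i0)} := by
        have h3 : Ideal.span (Set.range x) ≤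
            (Ideal.span {inc x i0 (x i0)}).comap (inc x i0) := by
          rw [Ideal.span_le]
          rintro _ ⟨i, rfl⟩
          change inc x i0 (x i) ∈ Ideal.span {inc x i0 (x i0)}
          rw [inc_x hx0 i]
          exact Ideal.mul_mem_right _ _ (Ideal.mem_span_singleton_self _)
        exact h3 hc
      rw [map_sub, AlgHom.commutes] at h2
      exact Ideal.Quotient.eq.2 h2
    rw [h1]
    exact Subalgebra.algebraMap_mem _ c
  · intro i
    by_cases hi : i = i0
    · subst hi
      rw [qt_self hx0, map_one]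
      exact one_mem _
    · exact ⟨MvPolynomial.X ⟨i, hi⟩, MvPolynomial.aeval_X _ _⟩
  · intro f g hf hg
    rw [map_add]
    exact add_mem hf hg
  · intro f g hf hg
    rw [map_mul]
    exact mul_mem hf hg

theorem hasDim_mvPolynomial (k : Type) [Field k] (σ : Type) [Fintype σ] :
    HasDim k (MvPolynomial σ k) (Fintype.card σ) := by
  refine ⟨(MvPolynomial.renameEquiv k (Fintype.equivFin σ).symm).toAlgHom,
    (MvPolynomial.renameEquiv k (Fintype.equivFin σ).symm).injective, ?_⟩
  exact RingHom.isIntegral_of_surjective _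
    (MvPolynomial.renameEquiv k (Fintype.equivFin σ).symm).surjective

theorem one_le_height {R : Type} [CommRing R] [IsDomain R] {Q : Ideal R} [Q.IsPrime] (h : Q ≠ ⊥) :
    1 ≤ Q.height := by
  have h5 : (⊥ : Ideal R) < Q := bot_lt_iff_ne_bot.2 h
  haveI : (⊥ : Ideal R).IsPrime := Ideal.isPrime_bot
  have h6 := Ideal.height_add_one_le_of_lt_of_isPrime h5
  rwa [Ideal.height_bot, zero_add] at h6

theorem pj_injective [Infinite k] [Fintype ι] (hA : A.FG) (hf : IsFractionRing A F)
    (hd : HasDim k A (Fintype.card ι)) (hx0 : x i0 ≠ 0) {m : Ideal A} [hm : m.IsPrime]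
    (hxm : Ideal.span (Set.range x) = m) (hh : m.height = Fintype.card ι)
    (hk : ∀ a : A, ∃ c : k, a - algebraMap k A c ∈ m) :
    Function.Injective (pj x i0) := by
  classical
  haveI hftA : Algebra.FiniteType k A := (Subalgebra.fg_iff_finiteType _).1 hA
  haveI : IsNoetherianRing A := Algebra.FiniteType.isNoetherianRing k A
  haveI : Algebra.FiniteType k (bl A x i0) := (Subalgebra.fg_iff_finiteType _).1 (bl_fg hA)
  haveI : IsNoetherianRing (bl A x i0) := Algebra.FiniteType.isNoetherianRing k _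
  have hB := bl_hasDim (x := x) (i0 := i0) hA hf hd
  have htop := span_ne_top (k := k) hx0 hxm hh
  obtain ⟨M, hM, hIM⟩ := Ideal.exists_le_maximal _ htop
  haveI := hM.isPrime
  obtain ⟨Q, hQ, -⟩ := Ideal.exists_minimalPrimes_le hIM
  haveI hQp : Q.IsPrime := hQ.1.1
  have hzQ : inc x i0 (x i0) ∈ Q := hQ.1.2 (Ideal.mem_span_singleton_self _)
  have hQ1 : Q.height = 1 := by
    apply le_antisymm
    · exact Ideal.height_le_one_of_isPrincipal_of_mem_minimalPrimes _ Q hQ
    · refine one_le_height ?_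
      rintro rfl
      have : inc x i0 (x i0) = 0 := hzQ
      exact coe_ne hx0 (congrArg (Subtype.val : bl A x i0 → F) this)
  obtain ⟨h, t, h1, h2, h3⟩ := hB.quotient Q
  rw [hQ1] at h1
  have h4 : h = 1 := by exact_mod_cast h1.symm
  let φ : MvPolynomial {i // i ≠ i0} k →ₐ[k] bl A x i0 ⧸ Q :=
    (Ideal.Quotient.factorₐ k hQ.1.2).comp (pj x i0)
  have hφ : Function.Surjective φ :=
    (Ideal.Quotient.factor_surjective hQ.1.2).comp
      (pj_surjective hx0 (fun a => by rw [hxm]; exact hk a))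
  haveI : (RingHom.ker φ).IsPrime := RingHom.ker_isPrime _
  obtain ⟨h', t', h5, h6, h7⟩ := (hasDim_mvPolynomial k {i // i ≠ i0}).quotient (RingHom.ker φ)
  haveI : IsNoetherianRing (bl A x i0 ⧸ Q) := inferInstance
  have h8 : HasDim k (bl A x i0 ⧸ Q) t' := by
    let e := Ideal.quotientKerAlgEquivOfSurjective hφ
    exact h6.of_integral e.toAlgHom e.injective
      (RingHom.isIntegral_of_surjective _ e.surjective)
  have h9 : t' = t := h8.unique h2
  have hcard : Fintype.card {i // i ≠ i0} = Fintype.card ι - 1 := by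
    simp [Fintype.card_subtype_compl]
  have hpos : 0 < Fintype.card ι := Fintype.card_pos_iff.2 ⟨i0⟩
  have h10 : h' = 0 := by omega
  have hbot : RingHom.ker φ = ⊥ := by
    by_contra hne
    have h11 := one_le_height hne
    rw [h5, h10] at h11
    exact absurd h11 (by decide)
  have hinj : Function.Injective φ := (RingHom.injective_iff_ker_eq_bot φ).2 hbot
  intro a b hab
  apply hinj
  change Ideal.Quotient.factorₐ k hQ.1.2 (pj x i0 a) = Ideal.Quotient.factorₐ k hQ.1.2 (pj x i0 b)
  rw [hab]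

/-- The homomorphism to the coordinate ring of the exceptional divisor. -/
theorem exists_rho [Infinite k] [Fintype ι] (hA : A.FG) (hf : IsFractionRing A F)
    (hd : HasDim k A (Fintype.card ι)) (hx0 : x i0 ≠ 0) {m : Ideal A} [hm : m.IsPrime]
    (hxm : Ideal.span (Set.range x) = m) (hh : m.height = Fintype.card ι)
    (hk : ∀ a : A, ∃ c : k, a - algebraMap k A c ∈ m) :
    ∃ ρ : bl A x i0 →ₐ[k] MvPolynomial {i // i ≠ i0} k, Function.Surjective ρ ∧
      (∀ f, ρ f = 0 ↔ f ∈ Ideal.span {inc x i0 (x i0)}) ∧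
      (∀ i : {i // i ≠ i0}, ρ (qt x i0 i) = MvPolynomial.X i) := by
  have hinj := pj_injective hA hf hd hx0 hxm hh hk
  have hsur := pj_surjective hx0 (fun a => by rw [hxm]; exact hk a)
  let e := AlgEquiv.ofBijective (pj x i0) ⟨hinj, hsur⟩
  refine ⟨e.symm.toAlgHom.comp (Ideal.Quotient.mkₐ k _), ?_, ?_, ?_⟩
  · exact e.symm.surjective.comp (Ideal.Quotient.mkₐ_surjective k _)
  · intro f
    change e.symm (Ideal.Quotient.mk _ f) = 0 ↔ _
    rw [EmbeddingLike.map_eq_zero_iff, Ideal.Quotient.eq_zero_iff_mem]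
  · intro i
    change e.symm (Ideal.Quotient.mk _ (qt x i0 i)) = _
    rw [AlgEquiv.symm_apply_eq]
    change _ = pj x i0 (MvPolynomial.X i)
    unfold pj
    rw [MvPolynomial.aeval_X]

/-- Modulo an ideal which contains `x i0` and the `x i / x i0 - c i` everything is constant. -/
theorem sub_eval_mem {ρ : bl A x i0 →ₐ[k] MvPolynomial {i // i ≠ i0} k}
    (hρ0 : ∀ f, ρ f = 0 ↔ f ∈ Ideal.span {inc x i0 (x i0)})
    (hρX : ∀ i : {i // i ≠ i0}, ρ (qt x i0 i) = MvPolynomial.X i) (J : Ideal (bl A x i0))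
    (hz : inc x i0 (x i0) ∈ J) (c : {i // i ≠ i0} → k)
    (hc : ∀ i : {i // i ≠ i0}, qt x i0 i - algebraMap k _ (c i) ∈ J) (f : bl A x i0) :
    f - algebraMap k _ (MvPolynomial.eval c (ρ f)) ∈ J := by
  -- modulo `x i0`
  have h1 : f - MvPolynomial.aeval (fun i : {i // i ≠ i0} => qt x i0 i) (ρ f) ∈ J := by
    have h2 : f - MvPolynomial.aeval (fun i : {i // i ≠ i0} => qt x i0 i) (ρ f) ∈
        Ideal.span {inc x i0 (x i0)} := by
      have h3 : ρ.comp (MvPolynomial.aeval (fun i : {i // i ≠ i0} => qt x i0 i)) =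
          AlgHom.id k _ := by
        ext i : 1
        change ρ (MvPolynomial.aeval _ (MvPolynomial.X i)) = MvPolynomial.X i
        rw [MvPolynomial.aeval_X, hρX]
      have h8 : ρ (MvPolynomial.aeval (fun i : {i // i ≠ i0} => qt x i0 i) (ρ f)) = ρ f :=
        DFunLike.congr_fun h3 (ρ f)
      rw [← hρ0, map_sub, h8, sub_self]
    exact (Ideal.span_singleton_le_iff_mem J).2 hz h2
  have h4 : ∀ p : MvPolynomial {i // i ≠ i0} k,
      MvPolynomial.aeval (fun i : {i // i ≠ i0} => qt x i0 i) p -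
        algebraMap k _ (MvPolynomial.eval c p) ∈ J := by
    intro p
    rw [← Ideal.Quotient.eq]
    have h5 : (Ideal.Quotient.mkₐ k J).comp
        (MvPolynomial.aeval (fun i : {i // i ≠ i0} => qt x i0 i)) =
        (Algebra.ofId k (bl A x i0 ⧸ J)).comp (MvPolynomial.aeval c) := by
      ext i
      change Ideal.Quotient.mk J (MvPolynomial.aeval _ (MvPolynomial.X i)) =
        algebraMap k _ (MvPolynomial.aeval c (MvPolynomial.X i))
      rw [MvPolynomial.aeval_X, MvPolynomial.aeval_X]
      exact Ideal.Quotient.eq.2 (hc i)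
    have h6 := DFunLike.congr_fun h5 p
    change Ideal.Quotient.mk J (MvPolynomial.aeval _ p) = algebraMap k _ (MvPolynomial.aeval c p)
      at h6
    rw [h6]
    rfl
  have h7 := add_mem h1 (h4 (ρ f))
  rwa [sub_add_sub_cancel] at h7

/-- The coordinates at a point of the exceptional divisor. -/
def par [DecidableEq ι] (x : ι → A) (i0 : ι) (c : {i // i ≠ i0} → k) (i : ι) : bl A x i0 :=
  if h : i = i0 then inc x i0 (x i0) else qt x i0 i - algebraMap k _ (c ⟨i, h⟩)

/-- The points of the exceptional divisor. -/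
theorem mem_point_iff {ρ : bl A x i0 →ₐ[k] MvPolynomial {i // i ≠ i0} k}
    (hρ0 : ∀ f, ρ f = 0 ↔ f ∈ Ideal.span {inc x i0 (x i0)})
    (hρX : ∀ i : {i // i ≠ i0}, ρ (qt x i0 i) = MvPolynomial.X i) {n : Ideal (bl A x i0)}
    (hn : n ≠ ⊤) (hz : inc x i0 (x i0) ∈ n) (c : {i // i ≠ i0} → k)
    (hc : ∀ i : {i // i ≠ i0}, qt x i0 i - algebraMap k _ (c i) ∈ n) (f : bl A x i0) :
    f ∈ n ↔ MvPolynomial.eval c (ρ f) = 0 := by
  have h1 := sub_eval_mem hρ0 hρX n hz c hc f
  constructor
  · intro hf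
    have h2 := sub_mem hf h1
    rw [sub_sub_cancel] at h2
    by_contra h0
    apply hn
    rw [Ideal.eq_top_iff_one]
    have h3 := n.mul_mem_left (algebraMap k _ (MvPolynomial.eval c (ρ f))⁻¹) h2
    rwa [← map_mul, inv_mul_cancel₀ h0, map_one] at h3
  · intro h0
    rwa [h0, map_zero, sub_zero] at h1

theorem span_par [DecidableEq ι] {ρ : bl A x i0 →ₐ[k] MvPolynomial {i // i ≠ i0} k}
    (hρ0 : ∀ f, ρ f = 0 ↔ f ∈ Ideal.span {inc x i0 (x i0)})
    (hρX : ∀ i : {i // i ≠ i0}, ρ (qt x i0 i) = MvPolynomial.X i) {n : Ideal (bl A x i0)}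
    (hn : n ≠ ⊤) (hz : inc x i0 (x i0) ∈ n) (c : {i // i ≠ i0} → k)
    (hc : ∀ i : {i // i ≠ i0}, qt x i0 i - algebraMap k _ (c i) ∈ n) :
    Ideal.span (Set.range (par x i0 c)) = n := by
  apply le_antisymm
  · rw [Ideal.span_le]
    rintro _ ⟨i, rfl⟩
    unfold par
    split_ifs with h
    · exact hz
    · exact hc ⟨i, h⟩
  · intro f hf
    have h1 := (mem_point_iff hρ0 hρX hn hz c hc f).1 hf
    have h2 := sub_eval_mem hρ0 hρX (Ideal.span (Set.range (par x i0 c))) (by
      refine Ideal.subset_span ⟨i0, ?_⟩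
      unfold par
      rw [dif_pos rfl]) c (by
      intro i
      refine Ideal.subset_span ⟨i, ?_⟩
      unfold par
      rw [dif_neg i.2]) f
    rwa [h1, map_zero, sub_zero] at h2

/-- A maximal ideal generated by as many elements as its height is regular. -/
theorem regular_of_span {R : Type} [CommRing R] [IsNoetherianRing R] {ι : Type} [Fintype ι]
    {m : Ideal R} [hm : m.IsPrime] (x : ι → R) (hx : Ideal.span (Set.range x) = m)
    (hh : m.height = Fintype.card ι) : IsRegularLocalRing (Localization.AtPrime m) := by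
  let O := Localization.AtPrime m
  haveI : IsNoetherianRing O := IsLocalization.isNoetherianRing m.primeCompl O inferInstance
  apply IsRegularLocalRing.of_spanFinrank_maximalIdeal_le
  have hmax : Ideal.span (Set.range fun i => algebraMap R O (x i)) = maximalIdeal O := by
    have h6 : Ideal.map (algebraMap R O) (Ideal.span (Set.range x)) = maximalIdeal O := by
      rw [hx]
      exact Localization.AtPrime.map_eq_maximalIdeal
    rw [← h6, Ideal.map_span, ← Set.range_comp]
    rfl
  rw [IsLocalization.AtPrime.ringKrullDim_eq_height m O, hh]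
  have h1 : (maximalIdeal O).spanFinrank ≤ Fintype.card ι := by
    rw [← hmax]
    refine (Submodule.spanFinrank_span_le_ncard_of_finite (Set.finite_range _)).trans ?_
    have h2 := Set.ncard_image_le (f := fun i => algebraMap R O (x i)) (Set.finite_univ (α := ι))
    rw [Set.image_univ, Set.ncard_univ, Nat.card_eq_fintype_card] at h2
    exact h2
  have h3 : (((maximalIdeal O).spanFinrank : ℕ) : WithBot ℕ∞) ≤ ((Fintype.card ι : ℕ) : WithBot ℕ∞) := by
    exact_mod_cast h1
  exact h3

end Quotient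

end Pool.Agent.Lib.MP_b197b4_ntQ
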