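import Pool.Agent.Lib.MP_b197b4_ntK.KLoc
import Pool.Agent.Lib.MP_b197b4_ntA.Defs
import Pool.Agent.Lib.MP_b197b4_ntQ.Bl1

/-!
# MP_b197b4_nt, project K1-ALL, block Q: lines in the exceptional divisor
-/

set_option autoImplicit false
set_option linter.style.haveILetI false

namespace Pool.Agent.Lib.MP_b197b4_ntQ

open IsLocalRing Pool.Agent.Lib.MP_b197b4_ntK Pool.Agent.Lib.MP_b197b4_ntA

open Polynomial in
/-- The place `t = a` of the rational function field. -/
theorem exists_place {k : Type} [Field k] (a : k) :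
    ∃ W : ValuationSubring (RatFunc k), Place k W ∧
      (∀ p : k[X], algebraMap k[X] (RatFunc k) p ∈ W) ∧
      (∀ p : k[X], W.valuation (algebraMap k[X] (RatFunc k) p) < 1 ↔ p.eval a = 0) ∧
      ∀ y ∈ W, ∃ p q : k[X], W.valuation (algebraMap k[X] (RatFunc k) q) = 1 ∧
        y = algebraMap k[X] (RatFunc k) p / algebraMap k[X] (RatFunc k) q := by
  let j : k[X] →ₐ[k] RatFunc k := IsScalarTower.toAlgHom k k[X] (RatFunc k)
  have hj : Function.Injective j := IsFractionRing.injective k[X] (RatFunc k)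
  let A := j.range
  let e : k[X] ≃ₐ[k] A := AlgEquiv.ofInjective j hj
  have he : ∀ p, (e p : RatFunc k) = algebraMap k[X] (RatFunc k) p := fun p => rfl
  haveI : IsPrincipalIdealRing A := IsPrincipalIdealRing.of_surjective e.toRingHom e.surjective
  haveI hfr : IsFractionRing A (RatFunc k) := by
    apply IsFractionRing.of_field
    intro z
    obtain ⟨p, q, hq, rfl⟩ := IsFractionRing.div_surjective (A := k[X]) z
    exact ⟨e p, e q, rfl⟩
  let P : Ideal A := Ideal.comap e.symm.toRingHom (Ideal.span {X - C a})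
  have hP : ∀ p : k[X], e p ∈ P ↔ p.eval a = 0 := by
    intro p
    change e.symm (e p) ∈ Ideal.span {X - C a} ↔ _
    rw [AlgEquiv.symm_apply_apply, Ideal.mem_span_singleton, dvd_iff_isRoot]
    rfl
  haveI : (Ideal.span {X - C a} : Ideal k[X]).IsPrime := by
    rw [Ideal.span_singleton_prime (X_sub_C_ne_zero a)]
    exact prime_X_sub_C a
  haveI hPp : P.IsPrime := Ideal.IsPrime.comap _
  have hP0 : P ≠ ⊥ := by
    intro h
    have h1 : e (X - C a) ∈ P := (hP _).2 (by simp)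
    rw [h, Ideal.mem_bot] at h1
    exact X_sub_C_ne_zero a (e.injective (by rw [h1, map_zero]))
  have hdvr : IsDiscreteValuationRing (Localization.AtPrime P) :=
    IsLocalization.AtPrime.isDiscreteValuationRing_of_dedekind_domain A hP0 _
  obtain ⟨W, hW, hPW⟩ := exists_curve_of_dvr hfr P hdvr
  refine ⟨W, ⟨hW.1, fun c => hW.2.1 _ (Subalgebra.algebraMap_mem _ c)⟩,
    fun p => hW.2.1 _ (e p).2, ?_, ?_⟩
  · intro p
    rw [← hP, hPW (e p)]
    rfl
  · intro y hy
    obtain ⟨b, s, hb, hs, h1, h2⟩ := hW.2.2 y hy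
    obtain ⟨p, rfl⟩ := hb
    obtain ⟨q, rfl⟩ := hs
    exact ⟨p, q, h1, h2⟩

section

variable {k F : Type} [Field k] [Field F] [Algebra k F] {A : Subalgebra k F} {ι : Type}
  {x : ι → A} {i0 : ι}

open Polynomial in
/-- Lines in the exceptional divisor. -/
theorem exists_line {ρ : bl A x i0 →ₐ[k] MvPolynomial {i // i ≠ i0} k}
    (hρs : Function.Surjective ρ)
    (hρ0 : ∀ f, ρ f = 0 ↔ f ∈ Ideal.span {inc x i0 (x i0)})
    {n n' : Ideal (bl A x i0)} {c c' : {i // i ≠ i0} → k} (hcc : c ≠ c')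
    (hn : ∀ f, f ∈ n ↔ MvPolynomial.eval c (ρ f) = 0)
    (hn' : ∀ f, f ∈ n' ↔ MvPolynomial.eval c' (ρ f) = 0) :
    ∃ (χ : bl A x i0 →ₐ[k] RatFunc k) (W W' : ValuationSubring (RatFunc k)),
      χ (inc x i0 (x i0)) = 0 ∧ (∀ e, ∃ a b : bl A x i0, χ b ≠ 0 ∧ e = χ a / χ b) ∧ Place k W ∧
        Place k W' ∧ CenterK χ W n ∧ CenterK χ W' n' ∧ RegK χ W ∧ RegK χ W' := by
  let L : MvPolynomial {i // i ≠ i0} k →ₐ[k] k[X] :=
    MvPolynomial.aeval fun i => C (c i) + X * C (c' i - c i)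
  have hLX : ∀ i, L (MvPolynomial.X i) = C (c i) + X * C (c' i - c i) :=
    fun i => MvPolynomial.aeval_X _ _
  have hL : Function.Surjective L := by
    obtain ⟨i, hi⟩ : ∃ i, c i ≠ c' i := Function.ne_iff.1 hcc
    have hi0 : c' i - c i ≠ 0 := sub_ne_zero.2 (Ne.symm hi)
    have hX : (X : k[X]) ∈ L.range := by
      refine ⟨(MvPolynomial.X i - MvPolynomial.C (c i)) * MvPolynomial.C (c' i - c i)⁻¹, ?_⟩
      change L _ = X
      have hC : ∀ a : k, L (MvPolynomial.C a) = C a := fun a => L.commutes a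
      rw [map_mul, map_sub, hLX, hC, hC, add_sub_cancel_left, mul_assoc, ← C_mul,
        mul_inv_cancel₀ hi0, C_1, mul_one]
    rw [← AlgHom.range_eq_top, eq_top_iff, ← Polynomial.adjoin_X, Algebra.adjoin_le_iff,
      Set.singleton_subset_iff]
    exact hX
  have hev0 : ∀ p, (L p).eval 0 = MvPolynomial.eval c p := by
    intro p
    have h1 : (Polynomial.aeval (0 : k)).comp L = MvPolynomial.aeval c := by
      ext i
      change Polynomial.aeval (0 : k) (L (MvPolynomial.X i)) = MvPolynomial.aeval c (MvPolynomial.X i)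
      rw [hLX, MvPolynomial.aeval_X]
      simp
    have h2 := DFunLike.congr_fun h1 p
    rw [← Polynomial.coe_aeval_eq_eval, ← MvPolynomial.coe_aeval_eq_eval]
    exact h2
  have hev1 : ∀ p, (L p).eval 1 = MvPolynomial.eval c' p := by
    intro p
    have h1 : (Polynomial.aeval (1 : k)).comp L = MvPolynomial.aeval c' := by
      ext i
      change Polynomial.aeval (1 : k) (L (MvPolynomial.X i)) = MvPolynomial.aeval c' (MvPolynomial.X i)
      rw [hLX, MvPolynomial.aeval_X]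
      simp
    have h2 := DFunLike.congr_fun h1 p
    rw [← Polynomial.coe_aeval_eq_eval, ← MvPolynomial.coe_aeval_eq_eval]
    exact h2
  obtain ⟨W, hW1, hW2, hW3, hW4⟩ := exists_place (0 : k)
  obtain ⟨W', hW1', hW2', hW3', hW4'⟩ := exists_place (1 : k)
  let χ : bl A x i0 →ₐ[k] RatFunc k := (IsScalarTower.toAlgHom k k[X] (RatFunc k)).comp (L.comp ρ)
  have hχ : ∀ f, χ f = algebraMap k[X] (RatFunc k) (L (ρ f)) := fun f => rfl
  have hsur : ∀ p : k[X], ∃ f, χ f = algebraMap k[X] (RatFunc k) p := by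
    intro p
    obtain ⟨q, rfl⟩ := hL p
    obtain ⟨f, rfl⟩ := hρs q
    exact ⟨f, rfl⟩
  refine ⟨χ, W, W', ?_, ?_, hW1, hW1', ?_, ?_, ?_, ?_⟩
  · rw [hχ, (hρ0 _).2 (Ideal.mem_span_singleton_self _), map_zero, map_zero]
  · intro e
    obtain ⟨p, q, hq, rfl⟩ := IsFractionRing.div_surjective (A := k[X]) e
    obtain ⟨a, ha⟩ := hsur p
    obtain ⟨b, hb⟩ := hsur q
    refine ⟨a, b, ?_, by rw [ha, hb]⟩
    rw [hb]
    exact fun h => nonZeroDivisors.ne_zero hq
      (IsFractionRing.injective k[X] (RatFunc k) (by rw [h, map_zero]))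
  · intro f
    refine ⟨by rw [hχ]; exact hW2 _, ?_⟩
    rw [hn, hχ, hW3, hev0]
  · intro f
    refine ⟨by rw [hχ]; exact hW2' _, ?_⟩
    rw [hn', hχ, hW3', hev1]
  · intro y hy
    obtain ⟨p, q, h1, h2⟩ := hW4 y hy
    obtain ⟨a, ha⟩ := hsur p
    obtain ⟨b, hb⟩ := hsur q
    exact ⟨a, b, by rw [hb]; exact h1, by rw [ha, hb]; exact h2⟩
  · intro y hy
    obtain ⟨p, q, h1, h2⟩ := hW4' y hy
    obtain ⟨a, ha⟩ := hsur p
    obtain ⟨b, hb⟩ := hsur q
    exact ⟨a, b, by rw [hb]; exact h1, by rw [ha, hb]; exact h2⟩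

end

end Pool.Agent.Lib.MP_b197b4_ntQ
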